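import Pool.Agent.helper60.XP.Defs

/-!
# Project xp: (MP_af9036_an, MP_70a088_an), parts L, B: propagation of the chain property, limit of the iterates

Paper: /team-store/MP_af9036_XP_helper60.md, sections 5, (2.5), quoted as [XP, (x.y)].

RULES. File `Pool/Agent/<seat>/XP/XX.lean`: `import Pool.Agent.helper54.XP.SpecL`, `set_option autoImplicit false`,
`open Complex Metric Set Filter Topology MeasureTheory XP`, `open V3S (UF)`, `noncomputable section`, `namespace XPL`,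
`theorem XX (h : YY_stmt) ... : XX_stmt`.
Hypotheses may be: other statements of this file (no circles), the tools `V3S.NCH_stmt`, `V3.KO0_stmt`, `V3.KO1_stmt`, `V3.KO3_stmt`, `V3.TUL_stmt`,
`V3.TMO_stmt`, `V3.TDE_stmt`, `V3.TBX_stmt`, `V3.NPK_stmt`, `V3.NLP_stmt`, `V3.PCO_stmt`, all `XPS.*_stmt` (Pool/Agent/helper54/XP/SpecS.lean), and all
statements of `PPS`, `MPS` (all these are proved). Auxiliary lemmas prefixed `XX_`. No `sorry`, no double quotes in comments.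
MOST MODULES ARE COPIES of a proved file of project v3: (named in the docstring). Dictionary: `BB b g` -> `H` (`D.H`), `IsNat D.b D.g` -> `XPS.IsNat D.PP D.H`,
`PPS.LevSys D.f D.b D.g G Ω D.k` -> `XPS.LevSys D.f D.PP D.H G Ω D.K`, `PPS.lev D.b D.g` -> `XPS.lev D.H`, `PPS.tau b g` -> `XPS.tau B`, `‖D.lam‖` -> `D.om` (levels) and `D.de` (displacement),
`PPS.LEA`, `PPS.LV` -> `XPS.LEAX`, `XPS.LVX` (their hypothesis `XPS.AD D.f D.PP D.H` is ADH). `K = N * k` levels instead of `k`.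
`UF` is by definition the coercion of `hyperfilter ℕ`; `V3S.UF_le : UF ≤ atTop`.
-/

set_option autoImplicit false

open Complex Metric Set Filter Topology MeasureTheory XP
open V3S (UF)

noncomputable section

namespace XPL

/-- the hypotheses of all sequence statements. -/
structure HL (n : ℕ) (C : ℝ) (D : ℕ → Dat) : Prop where
  seq : Seq n C D
  par : Par D
  lb : LB D

/-- the start of the propagation. -/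
def ST (D : ℕ → Dat) : Prop := ∃ x₀ ∈ Reg D, CTL D x₀

/-! ## Tools -/

/-- CAF: facts about nearly affine natural charts (copy of helper8/V3/CAF.lean). -/
def CAF_stmt : Prop := ∀ (P : Set ℂ) (B χ : ℂ → ℂ) (r : ℝ), 0 < r →
  XPS.IsNat P B χ (ball 0 r) → (∀ w ∈ ball (0 : ℂ) r, ‖deriv χ w - deriv χ 0‖ ≤ ‖deriv χ 0‖ / 10) →
  deriv χ 0 ≠ 0 ∧ InjOn χ (ball 0 r) ∧
  (∀ w ∈ ball (0 : ℂ) r, ∀ w' ∈ ball (0 : ℂ) r,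
    9 / 10 * ‖deriv χ 0‖ * ‖w - w'‖ ≤ ‖χ w - χ w'‖ ∧ ‖χ w - χ w'‖ ≤ 11 / 10 * ‖deriv χ 0‖ * ‖w - w'‖) ∧
  (∀ t : ℝ, 0 < t → t ≤ r → ball (χ 0) (9 / 10 * t * ‖deriv χ 0‖) ⊆ χ '' ball 0 t) ∧
  (∀ z ∈ ball (χ 0) (9 / 10 * r * ‖deriv χ 0‖),
    0.8 ≤ ‖B z‖ * ‖deriv χ 0‖ ^ 2 ∧ ‖B z‖ * ‖deriv χ 0‖ ^ 2 ≤ 1.25) ∧
  (∀ w ∈ ball (0 : ℂ) r, ‖deriv χ w - deriv χ 0‖ ≤ ‖deriv χ 0‖ / 10 * (‖w‖ / r))

/-- SGN: two natural charts with the same centre agree up to sign (copy of helper52/V3/SGN.lean; `XPS.NUX_stmt` replaces `MPS.NU`). -/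
def SGN_stmt : Prop := ∀ (P : Set ℂ) (B χ χ₁ : ℂ → ℂ) (r r₁ : ℝ), P.Finite → DifferentiableOn ℂ B Pᶜ →
  0 < r → 0 < r₁ → XPS.IsNat P B χ (ball 0 r) → XPS.IsNat P B χ₁ (ball 0 r₁) → χ 0 = χ₁ 0 →
  ∃ χ₂ : ℂ → ℂ, XPS.IsNat P B χ₂ (ball 0 r) ∧ χ₂ 0 = χ 0 ∧ ‖deriv χ₂ 0‖ = ‖deriv χ 0‖ ∧
    EqOn χ₂ χ₁ (ball 0 (min r r₁)) ∧
    ((∀ w ∈ ball (0 : ℂ) r, ‖deriv χ w - deriv χ 0‖ ≤ ‖deriv χ 0‖ / 10) →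
      ∀ w ∈ ball (0 : ℂ) r, ‖deriv χ₂ w - deriv χ₂ 0‖ ≤ ‖deriv χ₂ 0‖ / 10)

/-- NIX: continuation of the near identity statement (copy of helper58/V3/NIX.lean; `k` is only the number of levels). Uses CAF, `XPS.LVX_stmt`, `XPS.LEAX_stmt`. -/
def NIX_stmt : Prop := ∀ (k : ℕ) (f : Polynomial ℂ) (P : Set ℂ) (B χ : ℂ → ℂ)
  (G : ℕ → ℂ → ℂ) (Φ₁ : ℂ → ℂ) (h h' r η : ℝ), XPS.AD f P B → 0 < h → h ≤ 1 →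
  0 < h' → h' ≤ h → 0 < r → r ≤ h' → 0 ≤ η → η ≤ h / 100 → η ≤ r / 100 → η ≤ 1 / 100 →
  XPS.IsNat P B χ (ball 0 (16 * h)) → XPS.LevSys f P B G (ball 0 h') k →
  (∀ w ∈ ball (0 : ℂ) h', ∑ q ∈ Finset.Icc 1 k, XPS.lev B G q w ≤ η) →
  DifferentiableOn ℂ Φ₁ (ball 0 r) →
  (∀ w ∈ ball (0 : ℂ) r, Φ₁ w ∈ ball (0 : ℂ) (16 * h) ∧ ‖Φ₁ w - w‖ ≤ η ∧ χ (Φ₁ w) = G k w) →
  ∃ Φ : ℂ → ℂ, DifferentiableOn ℂ Φ (ball 0 h') ∧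
    ∀ w ∈ ball (0 : ℂ) h', Φ w ∈ ball (0 : ℂ) (16 * h) ∧ ‖Φ w - w‖ ≤ 2 * η ∧ χ (Φ w) = G k w

/-! ## Algebra of one datum -/

/-- BA1: the iterates in the `x`-plane (copy of helper67/V3/BA1.lean; `sg = R 0 > 0`; `D.it j` is by definition `fun z => (fun z => D.f.eval z)^[j] z`). -/
def BA1_stmt : Prop := ∀ (n : ℕ) (C A : ℝ) (D : Dat), D.Good n C A →
  D.sg ≠ 0 ∧ ‖D.sg‖ = D.R 0 ∧ (∀ x, D.xx (D.zz x) = x) ∧ (∀ z, D.zz (D.xx z) = z) ∧ (∀ x, D.F 0 x = x) ∧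
  (∀ i j x, D.F (i + j) x = D.F i (D.F j x)) ∧ (∀ j, Differentiable ℂ (D.F j)) ∧
  (∀ i j x, deriv (D.F (i + j)) x = deriv (D.F i) (D.F j x) * deriv (D.F j) x) ∧
  (∀ j x, deriv (D.F j) x = deriv ((fun z => D.f.eval z)^[j]) (D.zz x)) ∧
  (∀ j x, D.zz (D.F j x) = (fun z => D.f.eval z)^[j] (D.zz x)) ∧
  (∀ (j : ℕ) (l : ZMod D.k), D.F j (D.p l) = D.p (l + j)) ∧ D.p 0 = 0 ∧
  (∀ j : ℕ, D.F j 0 = D.p j) ∧ Function.Injective D.p ∧ (∀ l, D.zz (D.p l) = D.b l) ∧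
  (∀ l, deriv (D.F D.k) (D.p l) = PPS.rho D.f D.b)

/-- BAD: the bounds of one datum [XP, (2.5)]. Uses BA1.
PROOF. `trans` for `(0, j)`: `‖A_j‖ R_0 ≤ C R_j`. `trans` for `(j, k-j)`: `‖(f^(k-j))'(b_j)‖ R_j ≤ C R_0`, and `(f^(k-j))'(b_j) * A_j = (f^k)'(b_0) = rho`, `‖rho‖ ≥ 1`: `R_j ≤ C ‖A_j‖ R_0`; `R_j ≥ R_0` (`mini`). For `1 ≤ j < k`: `(j : ZMod k) ≠ 0`, `R_j ≤ ‖b_j - b_0‖` (`sepr`), `‖A_j‖ R_0 ≤ C R_j ≤ C ‖b_j - b_0‖ = C R_0 ‖p_j‖`.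
`‖p_i - p_l‖ = ‖b_i - b_l‖/R_0 ≥ R_i/R_0 ≥ 1`. `‖sg g_l‖ = R_0 ‖g_l‖ ≤ R_l ‖g_l‖ ≤ C` (`hg`). -/
def BAD_stmt : Prop := ∀ (n : ℕ) (C A : ℝ) (D : Dat), D.Good n C A →
  (∀ j ≤ D.k, D.A j ≠ 0 ∧ 1 / C ≤ ‖D.A j‖ ∧ ‖D.A j‖ * D.R 0 ≤ C * D.R (j : ZMod D.k) ∧
    D.R (j : ZMod D.k) ≤ C * ‖D.A j‖ * D.R 0) ∧
  (∀ i l, i ≠ l → 1 ≤ ‖D.p i - D.p l‖) ∧
  (∀ j, 1 ≤ j → j < D.k → ‖D.A j‖ ≤ C * ‖D.p (j : ZMod D.k)‖) ∧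
  (∀ l, ‖D.sg * D.g l‖ ≤ C)

/-- ADH: the normalised differential `H = s H0`.
PROOF. `Good.eng.ad`; `H = s H0` pointwise; for `0 ≤ s`: `TT f H = s TT f H0` (a multiset sum, `Multiset.sum_map_mul_left`), so `er` and `Df` are multiplied by `s`; `lintegral_const_mul'`. Poles: `zz x ∈ ball (b 0) (A R 0)` for `‖x‖ < A`: `invi 0`. -/
def ADH_stmt : Prop := ∀ (n : ℕ) (C A : ℝ) (D : Dat), D.Good n C A →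
  XPS.AD D.f D.PP D.H ∧ (∀ z, z ∉ D.PP → DifferentiableAt ℂ D.H z) ∧
  (∀ x, D.zz x ∉ D.PP → DifferentiableAt ℂ D.B x) ∧ (∀ x : ℂ, D.B x = D.sg ^ 2 * D.H (D.zz x)) ∧
  (∀ x : ℂ, ‖x‖ < A → D.zz x ∉ D.P ∧ ‖D.zz x‖ < D.rad ∧ (D.zz x ∈ D.PP ↔ ∃ l, x = D.p l)) ∧
  (0 ≤ D.s → ∫⁻ z in ball (0 : ℂ) D.rad, ENNReal.ofReal (XPS.Df D.f D.H z + 2 * ‖XPS.er D.f D.H z‖) ≤
    ENNReal.ofReal (D.s * D.E))

/-- EXB: bound of the number of exceptional levels (copy of helper93/V3/EXB.lean). Uses CAF, BA1, BAD, ADH, `V3.NPK_stmt`, `XPS.LVX_stmt`, `XPS.LEAX_stmt`.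
PROOF. As in V3: `‖p (-q) - y‖ ≤ (8 + 1.6 C) C` for `q` in the set. NPK for the points `p l - y` (distances `≥ 1`, BAD): at most `M` labels `l`; every label is `-q` for at most `N` numbers `q` with `1 ≤ q ≤ K = N * k`. -/
def EXB_stmt : Prop := ∀ C : ℝ, 1 ≤ C → ∃ M : ℕ, ∀ (n : ℕ) (C₀ A : ℝ) (D : Dat),
  D.Good n C₀ A → ∀ (y : ℂ) (h r : ℝ) (χ : ℂ → ℂ) (G : ℕ → ℂ → ℂ), 0 < h → h ≤ 1 → 0 < r →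
  XPS.IsNat D.PP D.H χ (ball 0 (16 * h)) → χ 0 = D.zz y →
  (∀ w ∈ ball (0 : ℂ) (16 * h), ‖deriv χ w - deriv χ 0‖ ≤ ‖deriv χ 0‖ / 10) →
  ‖deriv χ 0‖ ≤ C * ‖D.sg‖ → XPS.LevSys D.f D.PP D.H G (ball 0 r) D.K → G 0 0 = χ 0 →
  ∑ q ∈ Finset.Icc 1 D.K, XPS.lev D.H G q 0 ≤ 1 →
  (∀ q, 1 ≤ q → q ≤ D.K → ‖G q 0 - D.b (-(q : ZMod D.k))‖ ≤ C * ‖deriv (G q) 0‖) →
  {q : ℕ | 1 ≤ q ∧ q < D.K ∧ ‖G q 0 - χ 0‖ < 8 * h * ‖deriv χ 0‖}.ncard ≤ D.N * M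

/-- REC: change of the centre (copy of helper66/V3/REC.lean; two error bounds: `η` for the levels, `δ` for the displacement). Uses CAF, BA1, ADH, NIX (with `η := δ`), `V3.KO3_stmt`. -/
def REC_stmt : Prop := ∃ CK : ℝ, 1 ≤ CK ∧ ∀ (n : ℕ) (C₀ A : ℝ) (D : Dat),
  D.Good n C₀ A → ∀ (y y' : ℂ) (h r C C₁ η δ : ℝ) (χ : ℂ → ℂ) (G : ℕ → ℂ → ℂ) (Φ₁ : ℂ → ℂ), 0 < h → h ≤ 1 →
  0 < r → r ≤ h / 2 → 1 ≤ C → 1 ≤ C₁ → 0 ≤ η → η ≤ δ → δ ≤ h / 100 → δ ≤ r / 100 →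
  XPS.IsNat D.PP D.H χ (ball 0 (16 * h)) → χ 0 = D.zz y →
  (∀ w ∈ ball (0 : ℂ) (16 * h), ‖deriv χ w - deriv χ 0‖ ≤ ‖deriv χ 0‖ / 10) →
  ‖D.sg‖ / C₁ ≤ ‖deriv χ 0‖ → ‖y' - y‖ ≤ h / (10 * C₁) →
  XPS.LevSys D.f D.PP D.H G (ball 0 (h / 2)) D.K → EqOn (G 0) χ (ball 0 (h / 2)) →
  (∀ w ∈ ball (0 : ℂ) (h / 2), ∑ q ∈ Finset.Icc 1 D.K, XPS.lev D.H G q w ≤ η) →
  DifferentiableOn ℂ Φ₁ (ball 0 r) →
  (∀ w ∈ ball (0 : ℂ) r, Φ₁ w ∈ ball (0 : ℂ) (16 * h) ∧ ‖Φ₁ w - w‖ ≤ δ ∧ χ (Φ₁ w) = G D.K w) →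
  (∀ q, 1 ≤ q → q ≤ D.K → ‖G q 0 - D.b (-(q : ZMod D.k))‖ ≤ C * ‖deriv (G q) 0‖) →
  ∀ C' : ℝ, CK * (CK + C) ≤ C' → η ≤ C' * D.om → 2 * δ ≤ C' * D.de →
  ∃ (χ' : ℂ → ℂ) (G' : ℕ → ℂ → ℂ) (Φ' : ℂ → ℂ), Ctl D y' (h / 8) C' χ' G' Φ'

/-! ## Sequences -/

/-- LPI: the limit set of the poles (copy of helper12/V3/LPI.lean; BAD replaces SEP). Uses BA1, BAD, `V3.NLP_stmt`, `V3.PCO_stmt`. -/
def LPI_stmt : Prop := ∀ (n : ℕ) (C : ℝ) (D : ℕ → Dat), Seq n C D →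
  Pin D = V3.LP (hyperfilter ℕ) (fun m => ZMod (D m).k) (fun m => (D m).p) ∧ (0 : ℂ) ∈ Pin D ∧
  (∀ x, x ∉ Pin D → ∃ r > (0 : ℝ), ∀ᶠ m in UF, ∀ l : ZMod (D m).k, r ≤ ‖(D m).p l - x‖) ∧
  IsClosed (Pin D) ∧ (Pin D).Countable ∧ IsPreconnected (Pin D)ᶜ ∧
  (∃ c₀ > (0 : ℝ), (∀ p ∈ Pin D, ∀ p' ∈ Pin D, p ≠ p' → c₀ ≤ ‖p - p'‖) ∧
    (∀ p ∈ Pin D, ∀ ε > (0 : ℝ), ∀ᶠ m in UF, ∀ l : ZMod (D m).k, ‖(D m).p l - p‖ < c₀ / 4 →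
      ‖(D m).p l - p‖ < ε))

/-- LPB: local facts about `B` (second half of helper72/V3/LMB.lean). Uses LPI, ADH, `V3.TDE_stmt`.
PROOF. LPI (3) and ADH (for `‖x‖ < A m`, eventually; `Good` for `A m → ∞`). TDE as in V3 LMB. -/
def LPB_stmt : Prop := ∀ (n : ℕ) (C : ℝ) (D : ℕ → Dat), Seq n C D → LB D →
  (∀ x, x ∉ Pin D → ∃ r > (0 : ℝ), ∀ᶠ m in UF, DifferentiableOn ℂ (D m).B (ball x r) ∧
    ∀ y ∈ ball x r, (D m).zz y ∉ (D m).PP) ∧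
  (∀ K : Set ℂ, IsCompact K → K ⊆ (Pin D)ᶜ →
    TendstoUniformlyOn (fun m => deriv (D m).B) (deriv (Bin D)) UF K)

/-- REG: topology of the regular set (as helper1/V3/REG.lean). Uses LPI.
PROOF. Third claim: `LB.acc`. Open: LPI (closed), `LB.diff` (continuity). `Regᶜ` is countable (no accumulation points, third claim; as in V3), so `Reg` is connected. -/
def REG_stmt : Prop := ∀ (n : ℕ) (C : ℝ) (D : ℕ → Dat), Seq n C D → LB D →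
  IsOpen (Reg D) ∧ IsPreconnected (Reg D) ∧
  (∀ x : ℂ, ∃ ε > (0 : ℝ), ∀ y ∈ ball x ε, y ≠ x → y ∈ Reg D)

/-- CHT: uniform natural charts near a regular point (copy of helper11/V3/CHT.lean). Uses `V3S.NCH_stmt`, LPB, REG, BA1, ADH, `LB.conv`. -/
def CHT_stmt : Prop := ∀ (n : ℕ) (C : ℝ) (D : ℕ → Dat), Seq n C D → LB D → ∀ x ∈ Reg D,
  ∃ h > (0 : ℝ), ∃ η > (0 : ℝ), ∃ C ≥ (1 : ℝ), h ≤ 1 ∧ ∀ᶠ m in UF, ∀ y ∈ ball x η, ∃ χ : ℂ → ℂ,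
    XPS.IsNat (D m).PP (D m).H χ (ball 0 (16 * h)) ∧ χ 0 = (D m).zz y ∧
    (∀ w ∈ ball (0 : ℂ) (16 * h), ‖deriv χ w - deriv χ 0‖ ≤ ‖deriv χ 0‖ / 10) ∧
    ‖(D m).sg‖ / C ≤ ‖deriv χ 0‖ ∧ ‖deriv χ 0‖ ≤ C * ‖(D m).sg‖

/-- STP: the step of the propagation (as helper11/V3/STP.lean). Uses CHT, SGN, EXB, `XPS.CS_stmt`, REC, ADH, BA1, CAF.
PROOF. `h, η₁, C₁` from CHT; `η = min η₁ (h/(20 C₁))`, `η ≤ 1`. Let `y ∈ ball x η` with `CTL D y` (`r, C`, w.l.o.g. `C ≥ C₁`), `y' ∈ ball x η`. Eventually: chart `χ` at `y` on `ball 0 (16h)` (CHT) and `Ctl (D m) y r C χ₁ G₁ Φ₁`. SGN: `χ₂` on `ball 0 (16 h)`, equal to `χ₁` on `ball 0 (min (16h) (2r))`. `r₀ = min r (h/2)`. `M` from EXB (constant `C`).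
`R = rad`: `χ₂ '' ball 0 h ⊆ ball 0 rad`: every point of it is `zz x'` with `‖x'‖ ≤ ‖x‖ + 1 + 2 C₁ < A m` (CAF, ADH). `XPS.SU3` holds with `E = s E`, `η = C om` (eventually `≤ 1`), `k := K`, `M := N * M`, `PP` = the set of EXB. `XPS.eT (N M)(s E)(C om) ≤ (N M + 1) E + 4 C om ≤ (M + 2 + 4 C) om` (`Par.eo`, `E ≤ N E ≤ om`), and
`XPS.e3 n (N M) h r₀ ≥ c/N²` with `c = c(n, M, h, r₀) > 0`: the condition of CS holds eventually as `N² om ≤ N³ om → 0`. CS gives `G` on `ball 0 (3h/4)`, `∑ lev ≤ 16 eT/h² ≤ C₃ om` on `ball 0 (h/2)`, `G q = G₁ q` on `ball 0 r₀` (so values and derivatives at `0` agree: (kc)).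
REC with `r := r₀`, `Φ₁`, `η := max C C₃ * om`, `δ := max C C₃ * de` (eventually `≤ h/100, r₀/100`; `om ≤ de → 0`; `‖Φ₁ w‖ ≤ r₀ + δ < min (16h) (2r)`, where `χ₂ = χ₁`), `‖y' - y‖ < 2η ≤ h/(10 C₁)`, `C' = max (CK (CK + C)) (2 max C C₃)`. -/
def STP_stmt : Prop := ∀ (n : ℕ) (C : ℝ) (D : ℕ → Dat), HL n C D → ∀ x ∈ Reg D,
  ∃ η > (0 : ℝ), ∀ y ∈ ball x η, CTL D y → ∀ y' ∈ ball x η, CTL D y'

/-- ALC: the chain property holds on the regular set (copy of helper57/V3/ALC.lean). Uses STP, REG. -/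
def ALC_stmt : Prop := ∀ (n : ℕ) (C : ℝ) (D : ℕ → Dat), HL n C D → ST D → ∀ x ∈ Reg D, CTL D x

/-- CSZ: size of the charts (copy of helper91/V3/CSZ.lean). Uses BA1, `LB.conv`. -/
def CSZ_stmt : Prop := ∀ (n : ℕ) (C : ℝ) (D : ℕ → Dat), Seq n C D → LB D → ∀ x ∈ Reg D,
  ∃ C ≥ (1 : ℝ), ∀ᶠ m in UF, ∀ (χ : ℂ → ℂ) (r : ℝ), 0 < r → XPS.IsNat (D m).PP (D m).H χ (ball 0 r) →
    χ 0 = (D m).zz x → ‖(D m).sg‖ / C ≤ ‖deriv χ 0‖ ∧ ‖deriv χ 0‖ ≤ C * ‖(D m).sg‖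

/-- PHS: surjectivity of `Φ` and of the charts, in the `x`-plane (copy of helper13/V3/PHS.lean; `de → 0` is `Par.de1`). Uses CSZ, CAF, BA1. -/
def PHS_stmt : Prop := ∀ (n : ℕ) (C : ℝ) (D : ℕ → Dat), HL n C D → ∀ x ∈ Reg D, CTL D x →
  ∃ r > (0 : ℝ), ∃ C > (0 : ℝ), ∃ ρ > (0 : ℝ), ∀ᶠ m in UF, ∃ (χ : ℂ → ℂ) (G : ℕ → ℂ → ℂ) (Φ : ℂ → ℂ),
    Ctl (D m) x r C χ G Φ ∧ ‖deriv χ 0‖ ≤ C * ‖(D m).sg‖ ∧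
    ∀ y ∈ ball x ρ, ∃ w ∈ ball (0 : ℂ) r, (D m).zz y = G (D m).K w ∧ (D m).zz y = χ (Φ w) ∧
      (D m).zz ((D m).F (D m).K y) = χ w

/-- DLO: local bound of the displacement (copy of helper13/V3/VLO.lean). Uses PHS, CAF, BA1. -/
def DLO_stmt : Prop := ∀ (n : ℕ) (C : ℝ) (D : ℕ → Dat), HL n C D → ∀ x ∈ Reg D, CTL D x →
  ∃ r > (0 : ℝ), ∃ C : ℝ, ∀ᶠ m in UF, ∀ y ∈ ball x r, ‖(D m).F (D m).K y - y‖ ≤ C * (D m).de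

/-- DSP: bound of the displacement on bounded sets (as helper53/V3/VBD.lean, for the functions `(F K x - x)/de`; `de ≥ om > 0` eventually). Uses ALC, DLO, REG, BA1, `V3.TBX_stmt`. -/
def DSP_stmt : Prop := ∀ (n : ℕ) (C : ℝ) (D : ℕ → Dat), HL n C D → ST D → ∀ ρ > (0 : ℝ),
  ∃ C : ℝ, 0 ≤ C ∧ ∀ᶠ m in UF, ∀ x ∈ ball (0 : ℂ) ρ, ‖(D m).F (D m).K x - x‖ ≤ C * (D m).de

/-- INJ: injectivity of the iterates (as helper63/V3/INJ.lean, first claim). Uses DSP, BA1.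
PROOF. `‖F K x - x‖ ≤ C de` on `ball 0 (ρ+1)`, so the derivative of `F K x - x` is `≤ C de < 1` on `ball 0 ρ` (Cauchy): `F K` is injective there. `F K = F (K - j) ∘ F j`. -/
def INJ_stmt : Prop := ∀ (n : ℕ) (C : ℝ) (D : ℕ → Dat), HL n C D → ST D → ∀ ρ > (0 : ℝ),
  ∀ᶠ m in UF, ∀ j ≤ (D m).K, InjOn ((D m).F j) (ball 0 ρ)

/-- AFF: the iterates are nearly affine (copy of helper13/V3/AFF.lean). Uses INJ, BA1, `V3.KO0_stmt`, `V3.KO3_stmt`. -/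
def AFF_stmt : Prop := ∀ (n : ℕ) (C : ℝ) (D : ℕ → Dat), HL n C D → ST D →
  (∀ᶠ m in UF, ∀ j ≤ (D m).K, (D m).A j ≠ 0) ∧
  ∀ ρ > (0 : ℝ), ∀ ε > (0 : ℝ), ∀ᶠ m in UF, ∀ j ≤ (D m).K, ∀ x ∈ ball (0 : ℂ) ρ,
    ‖deriv ((D m).F j) x - (D m).A j‖ ≤ ε * ‖(D m).A j‖

/-- ISL: local form of the isometry property (copy of helper27/V3/ISL.lean). Uses PHS, BA1, ADH, `XPS.LVX_stmt`, `XPS.LEAX_stmt`. -/
def ISL_stmt : Prop := ∀ (n : ℕ) (C : ℝ) (D : ℕ → Dat), HL n C D → ∀ x ∈ Reg D, CTL D x →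
  ∃ ρ > (0 : ℝ), ∃ C : ℝ, ∀ᶠ m in UF, ∀ j ≤ (D m).K, ∀ y ∈ ball x ρ,
    ‖(D m).T j y - (D m).B y‖ ≤ C * (D m).om * ‖(D m).B y‖

/-- ISO (copy of helper19/V3/ISO.lean). Uses ISL, ALC, `LB.conv`. -/
def ISO_stmt : Prop := ∀ (n : ℕ) (C : ℝ) (D : ℕ → Dat), HL n C D → ST D →
  ∀ K : Set ℂ, IsCompact K → K ⊆ Reg D → ∀ ε > (0 : ℝ), ∀ᶠ m in UF, ∀ j ≤ (D m).K, ∀ x ∈ K,
    ‖(D m).T j x - Bin D x‖ ≤ ε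

/-- BEN [XP, (5.2)]: case `ζ ≠ 1` is impossible. Uses AFF, BA1.
PROOF. AFF with `ρ = 2`, `ε = η/4`, `j = k ≤ K = N * k` (`N ≥ 1`): `A k = rho` (BA1, `p 0 = 0`), `‖rho‖ ≤ 2`, `F k 0 = p k = 0`, so `‖F k x - rho x‖ ≤ η/2 ‖x‖` on `ball 0 2` (mean value inequality for `F k x - rho x`): contradiction to `GB.far`. -/
def BEN_stmt : Prop := ∀ (n : ℕ) (C η : ℝ) (ζ : ℂ) (D : ℕ → Dat), HL n C D → ST D → SeqB η ζ D → False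

end XPL
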