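import Pool.Agent.helper54.XP.SpecS

/-! xp:LVG: the level functions over an arbitrary map -/

set_option autoImplicit false

open Complex Metric Set Filter Topology MeasureTheory
open PPS (fd fdd pre TT CV Br cn)
open MPS (PsiM)

noncomputable section

namespace XPS

theorem LVG_sum (f : Polynomial ℂ) (B : ℂ → ℂ) (G : ℂ → ℂ) (w z : ℂ) :
    ((pre f z).map (brv f B G w)).sum = deriv G w ^ 2 * TT f B z := by
  unfold TT
  rw [← Multiset.sum_map_mul_left]
  refine congrArg Multiset.sum (Multiset.map_congr rfl fun y _ => ?_)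
  unfold brv
  rw [div_pow]
  ring

theorem LVG_norm_sum (s : Multiset ℂ) (F : ℂ → ℂ) : ‖(s.map F).sum‖ ≤ (s.map fun y => ‖F y‖).sum := by
  induction s using Multiset.induction_on with
  | empty => simp
  | cons a s ih =>
    rw [Multiset.map_cons, Multiset.sum_cons, Multiset.map_cons, Multiset.sum_cons]
    exact (norm_add_le _ _).trans (by linarith)

theorem LVG_split {M : Type*} [AddCommMonoid M] (s : Multiset ℂ) (y : ℂ) (hy : y ∈ s) (F : ℂ → M) :
    (s.map F).sum = F y + ((s.erase y).map F).sum := by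
  rw [← Multiset.cons_erase hy, Multiset.map_cons, Multiset.sum_cons, Multiset.erase_cons_head]

/-- one level. -/
theorem LVG_one (hPRB : PPS.PRB_stmt) (f : Polynomial ℂ) (B : ℂ → ℂ) (G : ℕ → ℂ → ℂ) (q : ℕ) (w : ℂ)
    (hn : 1 ≤ f.natDegree) (h1 : f.eval (G (q + 1) w) = G q w) (h0 : fd f (G (q + 1) w) ≠ 0)
    (hd : deriv (G q) w = fd f (G (q + 1) w) * deriv (G (q + 1)) w) :
    lev B G (q + 1) w ≤ dens f B (G q) w + ‖tau B G q w‖ - ‖tau B G (q + 1) w‖ := by
  have hm : G (q + 1) w ∈ pre f (G q w) := ((hPRB f hn).1 _ _).2 h1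
  have hb : brv f B (G q) w (G (q + 1) w) = tau B G (q + 1) w := by
    unfold brv tau
    rw [hd, mul_div_assoc, mul_comm (fd f (G (q + 1) w)), div_mul_cancel₀ _ h0]
  have e1 : tau B G q w = ((pre f (G q w)).map (brv f B (G q) w)).sum +
      deriv (G q) w ^ 2 * er f B (G q w) := by
    rw [LVG_sum]
    unfold tau er
    ring
  have e2 : Df f B (G q w) * ‖deriv (G q) w‖ ^ 2 =
      ((pre f (G q w)).map fun y => ‖brv f B (G q) w y‖).sum -
        ‖tau B G q w - deriv (G q) w ^ 2 * er f B (G q w)‖ := by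
    unfold Df
    rw [sub_mul]
    congr 1
    · rw [← Multiset.sum_map_mul_right]
      refine congrArg Multiset.sum (Multiset.map_congr rfl fun y _ => ?_)
      unfold brv
      rw [norm_mul, norm_pow, norm_div, div_pow]
      ring
    · unfold tau er
      rw [← mul_sub, norm_mul, norm_pow]
      ring_nf
  have e3 : dens f B (G q) w =
      Df f B (G q w) * ‖deriv (G q) w‖ ^ 2 + 2 * ‖deriv (G q) w ^ 2 * er f B (G q w)‖ := by
    unfold dens
    rw [norm_mul, norm_pow]
    ring
  rw [LVG_split _ _ hm, hb] at e1 e2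
  set E := deriv (G q) w ^ 2 * er f B (G q w) with hE
  set O := (((pre f (G q w)).erase (G (q + 1) w)).map (brv f B (G q) w)).sum with hO
  have e4 := LVG_norm_sum ((pre f (G q w)).erase (G (q + 1) w)) (fun y => brv f B (G q) w y)
  have e5 : lev B G (q + 1) w = ‖O + E‖ := by
    unfold lev
    rw [Nat.add_sub_cancel, e1]
    congr 1
    ring
  have e6 := norm_add_le O E
  have e7 := norm_sub_le (tau B G q w) E
  rw [e5, e3]
  have e8 : ‖O‖ ≤ (((pre f (G q w)).erase (G (q + 1) w)).map fun y => ‖brv f B (G q) w y‖).sum := e4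
  linarith

theorem LVG (hPRB : PPS.PRB_stmt) : LVG_stmt := by
  intro f B G Ω Q hn hO hdiff hrel w hw
  have hd : ∀ q < Q, deriv (G q) w = fd f (G (q + 1) w) * deriv (G (q + 1)) w := by
    intro q hq
    have h1 : DifferentiableAt ℂ (G (q + 1)) w := (hdiff (q + 1) hq).differentiableAt (hO.mem_nhds hw)
    have h2 : HasDerivAt (fun z => f.eval (G (q + 1) z))
        (f.derivative.eval (G (q + 1) w) * deriv (G (q + 1)) w) w :=
      (f.hasDerivAt (G (q + 1) w)).comp w h1.hasDerivAt
    have h3 : G q =ᶠ[𝓝 w] fun z => f.eval (G (q + 1) z) := by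
      filter_upwards [hO.mem_nhds hw] with z hz
      exact ((hrel q hq z hz).1).symm
    rw [h3.deriv_eq, h2.deriv]
    rfl
  have key : ∀ m ≤ Q, ∑ q ∈ Finset.Icc 1 m, lev B G q w ≤
      ∑ q ∈ Finset.range m, dens f B (G q) w + ‖tau B G 0 w‖ - ‖tau B G m w‖ := by
    intro m
    induction m with
    | zero => intro _; simp
    | succ m ih =>
      intro hm
      have h1 := ih (by omega)
      have h2 := LVG_one hPRB f B G m w hn (hrel m (by omega) w hw).1 (hrel m (by omega) w hw).2
        (hd m (by omega))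
      rw [Finset.sum_Icc_succ_top (by omega), Finset.sum_range_succ]
      linarith
  have key2 : ∀ m, ‖tau B G 0 w - tau B G m w‖ ≤ ∑ q ∈ Finset.Icc 1 m, lev B G q w := by
    intro m
    induction m with
    | zero => simp
    | succ m ih =>
      rw [Finset.sum_Icc_succ_top (by omega)]
      have e2 : tau B G 0 w - tau B G (m + 1) w = (tau B G 0 w - tau B G m w) +
          (tau B G m w - tau B G (m + 1) w) := by ring
      have e3 : lev B G (m + 1) w = ‖tau B G m w - tau B G (m + 1) w‖ := by
        unfold lev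
        rw [Nat.add_sub_cancel]
      rw [e2, e3]
      exact (norm_add_le _ _).trans (by linarith)
  refine ⟨key Q le_rfl, fun u hu hu0 => ?_⟩
  have h1 := key Q le_rfl
  have h2 := key2 Q
  have h3 : (u * (tau B G 0 w - tau B G Q w)).re = ‖tau B G 0 w‖ - (u * tau B G Q w).re := by
    rw [mul_sub, Complex.sub_re, hu0, Complex.ofReal_re]
  have h4 : (u * tau B G Q w).re ≤ ‖tau B G Q w‖ := by
    refine (Complex.re_le_norm _).trans ?_
    rw [norm_mul, hu, one_mul]
  rw [h3]
  linarith

end XPS
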