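import Pool.Agent.helper54.XP.SpecS

/-! xp:NUX: uniqueness of natural maps (adapted from helper59/MP/NL0.lean, helper97/MP/NU.lean) -/

set_option autoImplicit false

open Complex Metric Set Filter Topology MeasureTheory
open PPS (fd fdd pre TT CV Br cn)
open MPS (PsiM)

noncomputable section

namespace XPS

/-- A holomorphic square root of `B` with a primitive, injective near a regular point. -/
theorem NUX_prim {P : Set ℂ} {B : ℂ → ℂ} (hPf : P.Finite) (hBd : DifferentiableOn ℂ B Pᶜ) {z₀ : ℂ} (hz : z₀ ∉ P)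
    (hB : B z₀ ≠ 0) : ∃ r > (0 : ℝ), ∃ σ F : ℂ → ℂ, (∀ z ∈ ball z₀ r, HasDerivAt F (σ z) z) ∧
      (∀ z ∈ ball z₀ r, σ z ^ 2 = B z) ∧ (∀ z ∈ ball z₀ r, σ z ≠ 0) ∧
      (∀ z ∈ ball z₀ r, z ∉ P) ∧ ContinuousOn σ (ball z₀ r) ∧ InjOn F (ball z₀ r) := by
  obtain ⟨σ₀, hσ₀⟩ : ∃ σ₀ : ℂ, σ₀ ^ 2 = B z₀ := by
    obtain ⟨x, hx⟩ := IsAlgClosed.exists_pow_nat_eq (B z₀) (n := 2) (by norm_num)
    exact ⟨x, hx⟩
  have hσ₀0 : σ₀ ≠ 0 := by
    rintro rfl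
    rw [zero_pow two_ne_zero] at hσ₀
    exact hB hσ₀.symm
  have hav : ∀ᶠ z in 𝓝 z₀, z ∉ P := hPf.isClosed.isOpen_compl.mem_nhds hz
  have hBdz : ∀ z, z ∉ P → DifferentiableAt ℂ B z := fun z h =>
    hBd.differentiableAt (hPf.isClosed.isOpen_compl.mem_nhds h)
  have hcont : ContinuousAt (fun z => B z / B z₀) z₀ :=
    (hBdz z₀ hz).continuousAt.div_const _
  have hsl : ∀ᶠ z in 𝓝 z₀, B z / B z₀ ∈ slitPlane := by
    have h1 : B z₀ / B z₀ ∈ slitPlane := by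
      rw [div_self hB]
      exact one_mem_slitPlane
    exact hcont.eventually_mem (isOpen_slitPlane.mem_nhds h1)
  obtain ⟨r₀, hr₀, hr₀'⟩ := Metric.eventually_nhds_iff_ball.1 (hav.and hsl)
  set σ : ℂ → ℂ := fun z => σ₀ * (B z / B z₀) ^ ((1 : ℂ) / 2) with hσdef
  have hσsq : ∀ z ∈ ball z₀ r₀, σ z ^ 2 = B z := by
    intro z hz'
    have h1 : ((B z / B z₀) ^ ((1 : ℂ) / 2)) ^ 2 = B z / B z₀ := by
      rw [← Complex.cpow_nat_mul]
      norm_num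
    simp only [hσdef]
    rw [mul_pow, h1, hσ₀]
    field_simp
  have hBne : ∀ z ∈ ball z₀ r₀, B z ≠ 0 := by
    intro z hz' h0
    have := (hr₀' z hz').2
    rw [h0, zero_div] at this
    exact zero_notMem_slitPlane this
  have hσne : ∀ z ∈ ball z₀ r₀, σ z ≠ 0 := by
    intro z hz' h0
    have := hσsq z hz'
    rw [h0, zero_pow two_ne_zero] at this
    exact hBne z hz' this.symm
  have hσdiff : DifferentiableOn ℂ σ (ball z₀ r₀) := by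
    intro z hz'
    obtain ⟨h1, h2⟩ := hr₀' z hz'
    have h3 : DifferentiableAt ℂ (fun z => B z / B z₀) z :=
      (hBdz z h1).div_const _
    exact ((h3.cpow (differentiableAt_const _) h2).const_mul σ₀).differentiableWithinAt
  obtain ⟨F, hF⟩ := hσdiff.isExactOn_ball
  have hz₀ : z₀ ∈ ball z₀ r₀ := mem_ball_self hr₀
  have hstrict : HasStrictDerivAt F (σ z₀) z₀ := by
    have h1 : AnalyticAt ℂ F z₀ := by
      have h2 : DifferentiableOn ℂ F (ball z₀ r₀) := fun z hz' =>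
        (hF z hz').differentiableAt.differentiableWithinAt
      exact h2.analyticAt (ball_mem_nhds z₀ hr₀)
    have h2 := h1.hasStrictDerivAt
    rwa [(hF z₀ hz₀).deriv] at h2
  have hinj : ∃ r₁ > (0 : ℝ), InjOn F (ball z₀ r₁) := by
    obtain ⟨r₁, hr₁, hr₁'⟩ := Metric.eventually_nhds_iff_ball.1
      (hstrict.eventually_left_inverse (hσne z₀ hz₀))
    refine ⟨r₁, hr₁, fun x hx y hy hxy => ?_⟩
    rw [← hr₁' x hx, ← hr₁' y hy, hxy]
  obtain ⟨r₁, hr₁, hr₁'⟩ := hinj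
  have hs0 : ball z₀ (min r₀ r₁) ⊆ ball z₀ r₀ := ball_subset_ball (min_le_left _ _)
  have hs1 : ball z₀ (min r₀ r₁) ⊆ ball z₀ r₁ := ball_subset_ball (min_le_right _ _)
  exact ⟨min r₀ r₁, lt_min hr₀ hr₁, σ, F, fun z hz' => hF z (hs0 hz'), fun z hz' => hσsq z (hs0 hz'),
    fun z hz' => hσne z (hs0 hz'), fun z hz' => (hr₀' z (hs0 hz')).1,
    hσdiff.continuousOn.mono hs0, hr₁'.mono hs1⟩

theorem NUX_loc (P : Set ℂ) (B : ℂ → ℂ) (hPf : P.Finite) (hBd : DifferentiableOn ℂ B Pᶜ) (χ₁ χ₂ : ℂ → ℂ) (Ω₁ Ω₂ : Set ℂ)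
    (w₁ w₂ s : ℂ) (hΩ₁ : IsOpen Ω₁) (hΩ₂ : IsOpen Ω₂) (h₁ : IsNat P B χ₁ Ω₁) (h₂ : IsNat P B χ₂ Ω₂) (hw₁ : w₁ ∈ Ω₁)
    (hw₂ : w₂ ∈ Ω₂) (hχ : χ₁ w₁ = χ₂ w₂) (hs : s = 1 ∨ s = -1) (hd : deriv χ₁ w₁ = s * deriv χ₂ w₂) :
    ∃ ε > (0 : ℝ), ∀ h ∈ ball (0 : ℂ) ε, χ₁ (w₁ + h) = χ₂ (w₂ + s * h) := by
  have hs0 : s ≠ 0 := by
    rcases hs with rfl | rfl <;> norm_num
  have hsn : ‖s‖ = 1 := by
    rcases hs with rfl | rfl <;> simp
  have hB : B (χ₁ w₁) ≠ 0 := by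
    intro h0
    have := h₁.eq w₁ hw₁
    rw [h0, mul_zero] at this
    exact zero_ne_one this
  obtain ⟨r, hr, σ, F, hF, hσ2, hσ0, -, hσc, hinj⟩ := NUX_prim hPf hBd (h₁.av w₁ hw₁) hB
  -- the two functions
  have hd1 : ∀ h, w₁ + h ∈ Ω₁ → HasDerivAt (fun h => χ₁ (w₁ + h)) (deriv χ₁ (w₁ + h)) h := by
    intro h hh
    have h3 : HasDerivAt χ₁ (deriv χ₁ (w₁ + h)) (w₁ + h) :=
      (h₁.diff.differentiableAt (hΩ₁.mem_nhds hh)).hasDerivAt
    exact h3.comp_const_add w₁ h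
  have hd2 : ∀ h, w₂ + s * h ∈ Ω₂ →
      HasDerivAt (fun h => χ₂ (w₂ + s * h)) (deriv χ₂ (w₂ + s * h) * s) h := by
    intro h hh
    have h3 : HasDerivAt χ₂ (deriv χ₂ (w₂ + s * h)) (w₂ + s * h) :=
      (h₂.diff.differentiableAt (hΩ₂.mem_nhds hh)).hasDerivAt
    have h4 : HasDerivAt (fun h : ℂ => w₂ + s * h) s h := by
      simpa using ((hasDerivAt_id h).const_mul s).const_add w₂
    exact h3.comp h h4
  have hm1 : ∀ᶠ h in 𝓝 (0 : ℂ), w₁ + h ∈ Ω₁ := by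
    have : ContinuousAt (fun h : ℂ => w₁ + h) 0 := by fun_prop
    exact this.eventually_mem (hΩ₁.mem_nhds (by simpa using hw₁))
  have hm2 : ∀ᶠ h in 𝓝 (0 : ℂ), w₂ + s * h ∈ Ω₂ := by
    have : ContinuousAt (fun h : ℂ => w₂ + s * h) 0 := by fun_prop
    exact this.eventually_mem (hΩ₂.mem_nhds (by simpa using hw₂))
  have hb1 : ∀ᶠ h in 𝓝 (0 : ℂ), χ₁ (w₁ + h) ∈ ball (χ₁ w₁) r := by
    have h3 := (hd1 0 (by simpa using hw₁)).continuousAt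
    exact h3.eventually_mem (by simpa using ball_mem_nhds (χ₁ w₁) hr)
  have hb2 : ∀ᶠ h in 𝓝 (0 : ℂ), χ₂ (w₂ + s * h) ∈ ball (χ₁ w₁) r := by
    have h3 := (hd2 0 (by simpa using hw₂)).continuousAt
    refine h3.eventually_mem ?_
    have : χ₂ (w₂ + s * 0) = χ₁ w₁ := by simpa using hχ.symm
    rw [this]
    exact ball_mem_nhds (χ₁ w₁) hr
  obtain ⟨ε, hε, hall⟩ := Metric.eventually_nhds_iff_ball.1 ((hm1.and hm2).and (hb1.and hb2))
  refine ⟨ε, hε, ?_⟩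
  have hc1 : ContinuousOn (fun h => deriv χ₁ (w₁ + h)) (ball 0 ε) := by
    have h3 : ContinuousOn (deriv χ₁) Ω₁ := (h₁.diff.deriv hΩ₁).continuousOn
    exact h3.comp (by fun_prop) fun h hh => (hall h hh).1.1
  have hc2 : ContinuousOn (fun h => deriv χ₂ (w₂ + s * h)) (ball 0 ε) := by
    have h3 : ContinuousOn (deriv χ₂) Ω₂ := (h₂.diff.deriv hΩ₂).continuousOn
    exact h3.comp (by fun_prop) fun h hh => (hall h hh).1.2
  have hq1 : ContinuousOn (fun h => σ (χ₁ (w₁ + h)) * deriv χ₁ (w₁ + h)) (ball 0 ε) := by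
    refine ContinuousOn.mul (hσc.comp ?_ fun h hh => (hall h hh).2.1) hc1
    intro h hh
    exact (hd1 h (hall h hh).1.1).continuousAt.continuousWithinAt
  have hq2 : ContinuousOn (fun h => σ (χ₂ (w₂ + s * h)) * (deriv χ₂ (w₂ + s * h) * s))
      (ball 0 ε) := by
    refine ContinuousOn.mul (hσc.comp ?_ fun h hh => (hall h hh).2.2)
      (hc2.mul continuousOn_const)
    intro h hh
    exact (hd2 h (hall h hh).1.2).continuousAt.continuousWithinAt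
  have hs2 : s ^ 2 = 1 := by
    rcases hs with rfl | rfl <;> norm_num
  have hq1s : ∀ h ∈ ball (0 : ℂ) ε, (σ (χ₁ (w₁ + h)) * deriv χ₁ (w₁ + h)) ^ 2 = 1 := by
    intro h hh
    rw [mul_pow, hσ2 _ (hall h hh).2.1, mul_comm]
    exact h₁.eq _ (hall h hh).1.1
  have hq2s : ∀ h ∈ ball (0 : ℂ) ε,
      (σ (χ₂ (w₂ + s * h)) * (deriv χ₂ (w₂ + s * h) * s)) ^ 2 = 1 := by
    intro h hh
    rw [mul_pow, mul_pow, hσ2 _ (hall h hh).2.2, hs2, mul_one, mul_comm]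
    exact h₂.eq _ (hall h hh).1.2
  have h0 : (0 : ℂ) ∈ ball (0 : ℂ) ε := mem_ball_self hε
  have hq : EqOn (fun h => σ (χ₁ (w₁ + h)) * deriv χ₁ (w₁ + h))
      (fun h => σ (χ₂ (w₂ + s * h)) * (deriv χ₂ (w₂ + s * h) * s)) (ball 0 ε) := by
    have hpre : IsPreconnected (ball (0 : ℂ) ε) := (convex_ball _ _).isPreconnected
    have hne : ∀ {h : ℂ}, h ∈ ball (0 : ℂ) ε →
        (fun h => σ (χ₂ (w₂ + s * h)) * (deriv χ₂ (w₂ + s * h) * s)) h ≠ 0 := by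
      intro h hh h3
      have h4 := hq2s h hh
      simp only at h3
      rw [h3] at h4
      norm_num at h4
    rcases hpre.eq_or_eq_neg_of_sq_eq hq1 hq2 (fun h hh => by
      simp only [Pi.pow_apply]
      rw [hq1s h hh, hq2s h hh]) hne with h3 | h3
    · exact h3
    · exfalso
      have h4 := h3 h0
      have h5 := hq2s 0 h0
      simp only [add_zero, mul_zero, Pi.neg_apply] at h4 h5
      rw [← hχ] at h4 h5
      rw [hd, mul_comm s] at h4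
      have h6 : σ (χ₁ w₁) * (deriv χ₂ w₂ * s) = 0 := by linear_combination h4 / 2
      rw [h6] at h5
      norm_num at h5
  have hFd1 : ∀ h ∈ ball (0 : ℂ) ε, HasDerivAt (fun h => F (χ₁ (w₁ + h)))
      (σ (χ₁ (w₁ + h)) * deriv χ₁ (w₁ + h)) h := by
    intro h hh
    exact (hF _ (hall h hh).2.1).comp h (hd1 h (hall h hh).1.1)
  have hFd2 : ∀ h ∈ ball (0 : ℂ) ε, HasDerivAt (fun h => F (χ₂ (w₂ + s * h)))
      (σ (χ₂ (w₂ + s * h)) * (deriv χ₂ (w₂ + s * h) * s)) h := by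
    intro h hh
    exact (hF _ (hall h hh).2.2).comp h (hd2 h (hall h hh).1.2)
  intro h hh
  refine hinj (hall h hh).2.1 (hall h hh).2.2 ?_
  have hD : EqOn (fun h => F (χ₁ (w₁ + h))) (fun h => F (χ₂ (w₂ + s * h))) (ball 0 ε) := by
    refine isOpen_ball.eqOn_of_deriv_eq (convex_ball _ _).isPreconnected
      (fun h hh => (hFd1 h hh).differentiableAt.differentiableWithinAt)
      (fun h hh => (hFd2 h hh).differentiableAt.differentiableWithinAt) ?_ h0 ?_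
    · intro h hh
      rw [(hFd1 h hh).deriv, (hFd2 h hh).deriv]
      exact hq hh
    · simp only [add_zero, mul_zero]
      rw [hχ]
  exact hD hh



theorem NUX_core (P : Set ℂ) (B : ℂ → ℂ) (hPf : P.Finite) (hBd : DifferentiableOn ℂ B Pᶜ) (χ₁ χ₂ : ℂ → ℂ)
    (Ω₁ Ω₂ : Set ℂ) (w₁ w₂ s : ℂ) (hs : s = 1 ∨ s = -1) (hΩ₁ : IsOpen Ω₁) (hΩ₂ : IsOpen Ω₂)
    (h1 : IsNat P B χ₁ Ω₁) (h2 : IsNat P B χ₂ Ω₂) (hv : χ₁ w₁ = χ₂ w₂)
    (hd : deriv χ₁ w₁ = s * deriv χ₂ w₂) (K : Set ℂ) (hK : IsPreconnected K) (h0 : (0 : ℂ) ∈ K)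
    (hKA : ∀ h ∈ K, w₁ + h ∈ Ω₁ ∧ w₂ + s * h ∈ Ω₂) :
    ∀ h ∈ K, χ₁ (w₁ + h) = χ₂ (w₂ + s * h) ∧
      deriv χ₁ (w₁ + h) = s * deriv χ₂ (w₂ + s * h) := by
  have hc1 : Continuous fun y : ℂ => w₁ + y := by fun_prop
  have hc2 : Continuous fun y : ℂ => w₂ + s * y := by fun_prop
  obtain ⟨S, hSdef⟩ : ∃ S : Set ℂ, S = {h | (w₁ + h ∈ Ω₁ ∧ w₂ + s * h ∈ Ω₂) ∧
    χ₁ (w₁ + h) = χ₂ (w₂ + s * h) ∧ deriv χ₁ (w₁ + h) = s * deriv χ₂ (w₂ + s * h)} := ⟨_, rfl⟩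
  have hmem : ∀ h, h ∈ S ↔ (w₁ + h ∈ Ω₁ ∧ w₂ + s * h ∈ Ω₂) ∧
    χ₁ (w₁ + h) = χ₂ (w₂ + s * h) ∧ deriv χ₁ (w₁ + h) = s * deriv χ₂ (w₂ + s * h) := by
    intro h
    rw [hSdef]
    exact Iff.rfl
  have hSopen : IsOpen S := by
    rw [isOpen_iff_mem_nhds]
    intro h hh
    obtain ⟨⟨ha, hb⟩, hc, hdd⟩ := (hmem h).mp hh
    obtain ⟨ε, hε, hNL⟩ := NUX_loc P B hPf hBd χ₁ χ₂ Ω₁ Ω₂ (w₁ + h) (w₂ + s * h) s hΩ₁ hΩ₂ h1 h2 ha hb hc
      hs hdd
    have hval : ∀ x ∈ ball h ε, χ₁ (w₁ + x) = χ₂ (w₂ + s * x) := by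
      intro x hx
      have h3 := hNL (x - h) (by rw [mem_ball_zero_iff, ← dist_eq_norm]; exact hx)
      have e1 : w₁ + h + (x - h) = w₁ + x := by ring
      have e2 : w₂ + s * h + s * (x - h) = w₂ + s * x := by ring
      rwa [e1, e2] at h3
    have hn1 : ∀ᶠ x in 𝓝 h, w₁ + x ∈ Ω₁ := hc1.continuousAt.eventually (hΩ₁.mem_nhds ha)
    have hn2 : ∀ᶠ x in 𝓝 h, w₂ + s * x ∈ Ω₂ := hc2.continuousAt.eventually (hΩ₂.mem_nhds hb)
    filter_upwards [isOpen_ball.mem_nhds (mem_ball_self hε), hn1, hn2] with x hx hx1 hx2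
    refine (hmem x).mpr ⟨⟨hx1, hx2⟩, hval x hx, ?_⟩
    have d1 : HasDerivAt (fun y : ℂ => χ₁ (w₁ + y)) (deriv χ₁ (w₁ + x)) x := by
      have h4 : HasDerivAt χ₁ (deriv χ₁ (w₁ + x)) (w₁ + x) :=
        (h1.diff.differentiableAt (hΩ₁.mem_nhds hx1)).hasDerivAt
      have h5 : HasDerivAt (fun y : ℂ => w₁ + y) 1 x := (hasDerivAt_id x).const_add w₁
      have h6 := h4.comp x h5
      rw [mul_one] at h6
      exact h6
    have d2 : HasDerivAt (fun y : ℂ => χ₂ (w₂ + s * y)) (deriv χ₂ (w₂ + s * x) * s) x := by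
      have h4 : HasDerivAt χ₂ (deriv χ₂ (w₂ + s * x)) (w₂ + s * x) :=
        (h2.diff.differentiableAt (hΩ₂.mem_nhds hx2)).hasDerivAt
      have h5 : HasDerivAt (fun y : ℂ => w₂ + s * y) s x := by
        have h7 := ((hasDerivAt_id x).const_mul s).const_add w₂
        rw [mul_one] at h7
        exact h7
      exact h4.comp x h5
    have h8 : (fun y : ℂ => χ₁ (w₁ + y)) =ᶠ[𝓝 x] fun y : ℂ => χ₂ (w₂ + s * y) := by
      filter_upwards [isOpen_ball.mem_nhds hx] with y hy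
      exact hval y hy
    rw [mul_comm]
    exact d1.unique (d2.congr_of_eventuallyEq h8)
  have hsub : K ⊆ S := by
    refine hK.subset_of_closure_inter_subset hSopen ⟨0, h0, (hmem 0).mpr ⟨hKA 0 h0, ?_, ?_⟩⟩ ?_
    · rw [add_zero, mul_zero, add_zero]
      exact hv
    · rw [add_zero, mul_zero, add_zero]
      exact hd
    · rintro h ⟨hcl, hKh⟩
      obtain ⟨ha, hb⟩ := hKA h hKh
      have hNB : (𝓝[S] h).NeBot := mem_closure_iff_nhdsWithin_neBot.mp hcl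
      have c1 : ContinuousAt (fun y : ℂ => χ₁ (w₁ + y)) h :=
        ContinuousAt.comp (f := fun y : ℂ => w₁ + y) (g := χ₁)
          (h1.diff.differentiableAt (hΩ₁.mem_nhds ha)).continuousAt hc1.continuousAt
      have c2 : ContinuousAt (fun y : ℂ => χ₂ (w₂ + s * y)) h :=
        ContinuousAt.comp (f := fun y : ℂ => w₂ + s * y) (g := χ₂)
          (h2.diff.differentiableAt (hΩ₂.mem_nhds hb)).continuousAt hc2.continuousAt
      have c3 : ContinuousAt (fun y : ℂ => deriv χ₁ (w₁ + y)) h :=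
        ContinuousAt.comp (f := fun y : ℂ => w₁ + y) (g := deriv χ₁)
          ((h1.diff.deriv hΩ₁).differentiableAt (hΩ₁.mem_nhds ha)).continuousAt hc1.continuousAt
      have c4 : ContinuousAt (fun y : ℂ => deriv χ₂ (w₂ + s * y)) h :=
        ContinuousAt.comp (f := fun y : ℂ => w₂ + s * y) (g := deriv χ₂)
          ((h2.diff.deriv hΩ₂).differentiableAt (hΩ₂.mem_nhds hb)).continuousAt hc2.continuousAt
      have c5 : ContinuousAt (fun y : ℂ => s * deriv χ₂ (w₂ + s * y)) h := continuousAt_const.mul c4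
      refine (hmem h).mpr ⟨⟨ha, hb⟩, ?_, ?_⟩
      · refine tendsto_nhds_unique_of_eventuallyEq (l := 𝓝[S] h)
          (c1.tendsto.mono_left nhdsWithin_le_nhds)
          (c2.tendsto.mono_left nhdsWithin_le_nhds) ?_
        filter_upwards [self_mem_nhdsWithin] with y hy
        exact ((hmem y).mp hy).2.1
      · refine tendsto_nhds_unique_of_eventuallyEq (l := 𝓝[S] h)
          (c3.tendsto.mono_left nhdsWithin_le_nhds)
          (c5.tendsto.mono_left nhdsWithin_le_nhds) ?_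
        filter_upwards [self_mem_nhdsWithin] with y hy
        exact ((hmem y).mp hy).2.2
  intro h hh
  exact ((hmem h).mp (hsub hh)).2

theorem NUX : NUX_stmt := by
  intro P B χ₁ χ₂ Ω₁ Ω₂ w₁ w₂ hPf hBd hΩ₁ hΩ₂ h1 h2 hw₁ hw₂ hv
  obtain ⟨s, hs, hd⟩ : ∃ s : ℂ, (s = 1 ∨ s = -1) ∧ deriv χ₁ w₁ = s * deriv χ₂ w₂ := by
    have e1 := h1.eq w₁ hw₁
    have e2 := h2.eq w₂ hw₂
    rw [hv] at e1
    have hB : B (χ₂ w₂) ≠ 0 := by
      intro h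
      rw [h, mul_zero] at e2
      exact zero_ne_one e2
    have e3 : deriv χ₁ w₁ ^ 2 = deriv χ₂ w₂ ^ 2 := by
      apply mul_right_cancel₀ hB
      rw [e1, e2]
    rcases sq_eq_sq_iff_eq_or_eq_neg.mp e3 with h | h
    · exact ⟨1, Or.inl rfl, by rw [one_mul]; exact h⟩
    · exact ⟨-1, Or.inr rfl, by rw [neg_one_mul]; exact h⟩
  refine ⟨s, hs, hd, ?_, ?_⟩
  · intro K _ hK h0 hKA h hh
    exact (NUX_core P B hPf hBd χ₁ χ₂ Ω₁ Ω₂ w₁ w₂ s hs hΩ₁ hΩ₂ h1 h2 hv hd K hK h0 hKA h hh).1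
  · intro h₀ hseg
    have hK : IsPreconnected ((fun t : ℝ => (t : ℂ) * h₀) '' Icc (0 : ℝ) 1) := by
      refine isPreconnected_Icc.image _ (Continuous.continuousOn ?_)
      exact Complex.continuous_ofReal.mul continuous_const
    refine NUX_core P B hPf hBd χ₁ χ₂ Ω₁ Ω₂ w₁ w₂ s hs hΩ₁ hΩ₂ h1 h2 hv hd _ hK ?_ ?_ h₀ ?_
    · exact ⟨0, left_mem_Icc.mpr zero_le_one, by simp⟩
    · rintro _ ⟨t, ht, rfl⟩
      exact hseg t ht
    · exact ⟨1, right_mem_Icc.mpr zero_le_one, by simp⟩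

end XPS

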