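import Pool.Agent.helper54.XP.SpecS

/-!
# Project v3 (MP_af9036_an, MP_70a088_an): CS, the chain step
-/

set_option autoImplicit false

open Complex Metric Set Filter Topology MeasureTheory
open PPS (fd fdd pre TT CV Br cn)
open MPS (PsiM)

noncomputable section

namespace XPS

theorem CS_lev {f : Polynomial ℂ} {P : Set ℂ} {B : ℂ → ℂ} {G : ℕ → ℂ → ℂ} {Ω Ω' : Set ℂ} {Q : ℕ}
    (h : LevSys f P B G Ω Q) (hs : Ω' ⊆ Ω) : LevSys f P B G Ω' Q :=
  ⟨⟨h.nat0.diff.mono hs, fun w hw => h.nat0.av w (hs hw), fun w hw => h.nat0.eq w (hs hw)⟩,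
    fun q hq => (h.diff q hq).mono hs, fun q hq w hw => h.rel q hq w (hs hw)⟩

theorem CS (hPH : PH3_stmt) (hS3G : S3G_stmt) (hS3A : S3A_stmt) (hPT : PT3_stmt) : CS_stmt := by
  intro n k f P B R E η h r₀ χ G0 PP M hsu he
  obtain ⟨r, G, hr, hH⟩ := hPH n k f P B R E η h r₀ χ G0 PP M hsu he
  obtain ⟨hA1, hA2, hA3, hA4, -, -, -⟩ := hS3A n k f P B R E η h r₀ χ G0 PP M (fun _ => r) G k hH
  have hε : 0 ≤ eT M E η := (hS3G n k f P B R E η h r₀ χ G0 PP M hsu).2.2.2.2.1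
  have h0 : 0 < h := hsu.h0
  have hr0 : r₀ ≤ h / 2 := hsu.r1
  have hsub : ball (0 : ℂ) (3 * h / 4) ⊆ ball 0 r := ball_subset_ball hr.le
  have hg0 : G 0 = χ := hH.sys.g0
  have hbd : 0 ≤ 16 * eT M E η / h ^ 2 := by positivity
  have hpt : ∀ w ∈ ball (0 : ℂ) (h / 2), ∀ p, 1 ≤ p → p ≤ k →
      ∑ q ∈ Finset.Icc 1 p, lev B G q w ≤ 16 * eT M E η / h ^ 2 ∧
      ‖tau B G p w - 1‖ ≤ 16 * eT M E η / h ^ 2 := by
    intro w hw p h1 hp
    have hw' : ‖w‖ < h / 2 := by simpa using hw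
    obtain ⟨e1, e2⟩ := hPT n k f P B R E η h r₀ χ G0 PP M (fun _ => r) G k hH p h1 hp w (h / 4)
      (by linarith) (by linarith)
    have e3 : eT M E η / (h / 4) ^ 2 = 16 * eT M E η / h ^ 2 := by
      field_simp
      norm_num
    rw [e3] at e1
    exact ⟨e1, e2.trans e1⟩
  refine ⟨G, hg0, CS_lev (hA4 k le_rfl) hsub, fun q hq => ?_, fun q hq => (hA2 q hq).mono hsub,
    fun q hq => (hA3 q hq).mono_left hsub, fun w hw => ⟨?_, fun q hq => ?_⟩⟩
  · have h1 := hA1 q hq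
    rwa [min_eq_left (by linarith)] at h1
  · rcases Nat.eq_zero_or_pos k with hk | hk
    · rw [hk]
      simpa using hbd
    · exact (hpt w hw k hk le_rfl).1
  · rcases Nat.eq_zero_or_pos q with rfl | hq0
    · have hw' : ‖w‖ < h / 2 := by simpa using hw
      have h1 : tau B G 0 w = 1 := by
        unfold tau
        rw [hg0]
        exact hsu.nat.eq w (by simpa using (by linarith : ‖w‖ < 16 * h))
      rw [h1, sub_self, norm_zero]
      exact hbd
    · exact (hpt w hw q hq0 hq).2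

end XPS
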