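import Pool.Agent.helper54.XP.SpecS

/-! # Project v3 (MP_af9036_an): module EV3 (helper69): the loss of radius at a critical value
(adapted from helper60/PP/EV2.lean) -/

set_option autoImplicit false

open Complex Metric Set Filter Topology MeasureTheory
open PPS (fd fdd pre TT CV Br cn)
open MPS (PsiM)

noncomputable section

namespace XPS

theorem EV3_anti {f : Polynomial ℂ} {h : ℝ} {χ : ℂ → ℂ} {G0 : ℕ → ℂ → ℂ} {PP : Finset ℕ} {T : ℕ → ℝ}
    {G : ℕ → ℂ → ℂ} {Q : ℕ} (hs : Sys3 f h χ G0 PP T G Q) {q q' : ℕ} (hqq : q ≤ q')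
    (hq : q' ≤ Q) : T q' ≤ T q := by
  induction q', hqq using Nat.le_induction with
  | base => exact le_rfl
  | succ m hm ih => exact (hs.anti m (by omega)).trans (ih (by omega))

theorem EV3_res {f : Polynomial ℂ} {h : ℝ} {χ : ℂ → ℂ} {G0 : ℕ → ℂ → ℂ} {PP : Finset ℕ} {T : ℕ → ℝ}
    {G : ℕ → ℂ → ℂ} {Q : ℕ} (hs : Sys3 f h χ G0 PP T G (Q + 1)) :
    Sys3 f h χ G0 PP T G Q where
  t0 := hs.t0
  anti := fun q hq => hs.anti q (by omega)
  pos := fun q hq => hs.pos q (by omega)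
  g0 := hs.g0
  diff := fun q hq => hs.diff q (by omega)
  rel := fun q hq => hs.rel q (by omega)
  val := fun q hq => hs.val q (by omega)
  disj := fun q h1 hq => hs.disj q h1 (by omega)

theorem EV3_ofReal_sum {ι : Type} (s : Finset ι) (u : ι → ℝ) :
    ENNReal.ofReal (∑ i ∈ s, u i) ≤ ∑ i ∈ s, ENNReal.ofReal (u i) := by
  classical
  induction s using Finset.induction_on with
  | empty => simp
  | insert a s ha ih =>
    rw [Finset.sum_insert ha, Finset.sum_insert ha]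
    exact ENNReal.ofReal_add_le.trans (add_le_add le_rfl ih)

/-- Measurability of the pulled back densities. -/
theorem EV3_meas (hMI : MIX_stmt) {f : Polynomial ℂ}
    {P : Set ℂ} {B : ℂ → ℂ} (hf : AD f P B) {G : ℂ → ℂ} {Ω : Set ℂ} (hΩ : IsOpen Ω) (hG : DifferentiableOn ℂ G Ω) :
    AEMeasurable (fun w => ENNReal.ofReal (dens f B G w)) (volume.restrict Ω) := by
  obtain ⟨-, -, her, hDf, -⟩ := hMI f P B hf
  have hGm : AEMeasurable G (volume.restrict Ω) :=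
    (hG.continuousOn.aestronglyMeasurable hΩ.measurableSet).aemeasurable
  have h1 : AEMeasurable (fun w => Df f B (G w)) (volume.restrict Ω) :=
    hDf.comp_aemeasurable hGm
  have h2 : AEMeasurable (fun w => er f B (G w)) (volume.restrict Ω) :=
    her.comp_aemeasurable hGm
  have h3 : Measurable (deriv G) := measurable_deriv G
  unfold dens
  exact ((h1.add (h2.norm.const_mul 2)).mul (h3.norm.pow_const 2).aemeasurable).ennreal_ofReal

theorem EV3 (hBDY : PPS.BDY_stmt) (hEVT : EVTX_stmt) (hLEI : LEIX_stmt) (hLEA : LEAX_stmt)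
    (hLV : LVX_stmt) (hMA : MAX_stmt) (hMI : MIX_stmt) (hS3G : S3G_stmt) (hS3A : S3A_stmt)
    (hPT3 : PT3_stmt) : EV3_stmt := by
  intro n k f P B R E η h r₀ χ G0 PP M T G Q H hε r hrT hdis hbr
  by_contra hcon
  rw [not_lt] at hcon
  have su := H.su3
  have hn2 : 2 ≤ n := su.hn
  have hf1 : 1 ≤ f.natDegree := by rw [su.hdeg]; omega
  have hn0 : (0 : ℝ) < n := by exact_mod_cast (by omega : 0 < n)
  obtain ⟨-, -, -, hη0, hε0, hd0, hdr, -, -, -⟩ := hS3G n k f P B R E η h r₀ χ G0 PP M su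
  have hM0 : (0 : ℝ) ≤ M := Nat.cast_nonneg M
  have hE0 : 0 ≤ E := su.E0
  have hEe : ((M : ℝ) + 1) * E ≤ eT M E η := by
    unfold eT
    linarith
  set d : ℝ := d3 n M h r₀ with hd
  have hQk : Q + 1 ≤ k := H.hQ
  have HQ : H3 n k f P B R E η h r₀ χ G0 PP M T G Q := ⟨H.su3, EV3_res H.sys, by omega⟩
  obtain ⟨heq, hinj, hmap, hlev, -, hmult, -⟩ := hS3A n k f P B R E η h r₀ χ G0 PP M T G Q HQ
  obtain ⟨-, -, -, hlev1, -, -, -⟩ := hS3A n k f P B R E η h r₀ χ G0 PP M T G (Q + 1) H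
  have hT0 : 0 < T (Q + 1) := H.sys.pos (Q + 1) le_rfl
  have hTr : T (Q + 1) < r := by linarith
  -- the radius is at least `r₀`
  have hr0T : r₀ ≤ T (Q + 1) := by
    by_contra hlt
    rw [not_le] at hlt
    refine hbr (min r r₀) (lt_min hTr hlt) (min_le_left _ _) ?_
    have hsub : ball (0 : ℂ) (min r r₀) ⊆ ball 0 r₀ := ball_subset_ball (min_le_right _ _)
    refine ⟨G0 (Q + 1), (su.tdiff (Q + 1) hQk).mono hsub, rfl, ?_⟩
    intro w hw
    have h1 := su.trel Q (by omega) w (hsub hw)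
    have h2 : w ∈ ball (0 : ℂ) (min r₀ (T Q)) := by
      refine ball_subset_ball ?_ hw
      exact le_min (min_le_right _ _) ((min_le_left _ _).trans hrT)
    rw [heq Q le_rfl h2]
    exact h1
  have hdT : d ≤ T (Q + 1) := hdr.trans hr0T
  have hLSQ := hlev Q le_rfl
  have hLSQ1 := hlev1 (Q + 1) le_rfl
  have hrb : ball (0 : ℂ) r ⊆ ball 0 (T Q) := ball_subset_ball hrT
  have hbq : ∀ q ≤ Q, ball (0 : ℂ) r ⊆ ball 0 (T q) := fun q hq =>
    hrb.trans (ball_subset_ball (EV3_anti HQ.sys hq le_rfl))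
  -- the end of the branch
  obtain ⟨ws, ys, hws, hys, hlim⟩ := hBDY f (G Q) (G (Q + 1)) 0 (T (Q + 1)) r hf1 hT0 hTr
    ((H.sys.diff Q (by omega)).mono hrb) (H.sys.diff (Q + 1) le_rfl)
    (fun w hw => H.sys.rel Q (by omega) w hw) (by
      intro r' h1 h2
      have h3 : G (Q + 1) 0 = G0 (Q + 1) 0 := H.sys.val (Q + 1) le_rfl
      rw [h3]
      exact hbr r' h1 h2)
  have hbw : ball ws d ⊆ ball 0 r := by
    refine ball_subset_ball' ?_
    rw [dist_eq_norm, hws]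
    linarith
  have hbwT : ball ws d ⊆ ball 0 (T Q) := hbw.trans hrb
  -- the branch sums
  obtain ⟨-, hLV2, hLV3, -, -⟩ := hLV f P B G (ball 0 (T Q)) Q su.ad isOpen_ball hLSQ
  obtain ⟨hMA1, hMA2⟩ := hMA f P B R E su.ad su.hE
    (Q + 1) (M + 1) (fun _ => ball 0 r) G
    (fun q hq => ⟨isOpen_ball, (hLSQ.diff q (by omega)).mono hrb,
      (hinj q (by omega)).mono (hbq q (by omega)),
      (hmap q (by omega)).mono_left (hbq q (by omega))⟩)
    (fun z F hF => hmult r hrT hdis z F fun q hq => ⟨by have := (hF q hq).1; omega, (hF q hq).2⟩)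
  have hMe : (((M + 1 : ℕ) : ENNReal)) * ENNReal.ofReal E = ENNReal.ofReal (((M : ℝ) + 1) * E) := by
    rw [ENNReal.ofReal_mul (by positivity)]
    congr 1
    rw [ENNReal.ofReal_add hM0 (by norm_num), ENNReal.ofReal_natCast, ENNReal.ofReal_one]
    push_cast
    rfl
  have hbranch : ∫⁻ w in ball ws d, ENNReal.ofReal
      ((pre f (G Q w)).map fun y => ‖brv f B (G Q) w y‖ - (brv f B (G Q) w y).re).sum ≤
        ENNReal.ofReal (((M : ℝ) + 1) * E) := by
    have h1 : ∫⁻ w in ball ws d, ENNReal.ofReal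
        ((pre f (G Q w)).map fun y => ‖brv f B (G Q) w y‖ - (brv f B (G Q) w y).re).sum ≤
        ∫⁻ w in ball ws d, ∑ q ∈ Finset.range (Q + 1), ENNReal.ofReal (dens f B (G q) w) := by
      refine lintegral_mono_ae ?_
      rw [ae_restrict_iff' measurableSet_ball]
      refine Filter.Eventually.of_forall fun w hwb => ?_
      refine (ENNReal.ofReal_le_ofReal (hLV2 Q le_rfl w (hbwT hwb))).trans ?_
      exact EV3_ofReal_sum _ _
    refine h1.trans ?_
    rw [lintegral_finsetSum' _ fun q hq => EV3_meas hMI su.ad isOpen_ball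
      ((hLSQ.diff q (by have := Finset.mem_range.1 hq; omega)).mono hbwT)]
    calc ∑ q ∈ Finset.range (Q + 1), ∫⁻ w in ball ws d, ENNReal.ofReal (dens f B (G q) w)
        ≤ ∑ q ∈ Finset.range (Q + 1), ∫⁻ w in ball 0 r, ENNReal.ofReal (dens f B (G q) w) :=
          Finset.sum_le_sum fun q _ => lintegral_mono_set hbw
      _ ≤ ((M + 1 : ℕ) : ENNReal) * ENNReal.ofReal E := hMA1
      _ = ENNReal.ofReal (((M : ℝ) + 1) * E) := hMe
  have herr : ∫⁻ w in ball ws d, ENNReal.ofReal (‖er f B (G Q w)‖ * ‖deriv (G Q) w‖ ^ 2) ≤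
      ENNReal.ofReal (((M : ℝ) + 1) * E) := by
    calc ∫⁻ w in ball ws d, ENNReal.ofReal (‖er f B (G Q w)‖ * ‖deriv (G Q) w‖ ^ 2)
        ≤ ∫⁻ w in ball 0 r, ENNReal.ofReal (‖er f B (G Q w)‖ * ‖deriv (G Q) w‖ ^ 2) :=
          lintegral_mono_set hbw
      _ ≤ ∑ q ∈ Finset.range (Q + 1), ∫⁻ w in ball 0 r,
            ENNReal.ofReal (‖er f B (G q w)‖ * ‖deriv (G q) w‖ ^ 2) :=
          Finset.single_le_sum (f := fun q => ∫⁻ w in ball 0 r,
            ENNReal.ofReal (‖er f B (G q w)‖ * ‖deriv (G q) w‖ ^ 2))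
            (fun q _ => zero_le) (Finset.mem_range.2 (by omega))
      _ ≤ ((M + 1 : ℕ) : ENNReal) * ENNReal.ofReal E := hMA2
      _ = ENNReal.ofReal (((M : ℝ) + 1) * E) := hMe
  obtain ⟨hLEA1, -⟩ := hLEA f P B G (ball 0 (T Q)) Q su.ad isOpen_ball hLSQ
  obtain ⟨t, ht1, ht2, hevt⟩ := hEVT n f P B (G Q) (G (Q + 1)) 0 ws ys (T (Q + 1)) d
    (((M : ℝ) + 1) * E) hn2 su.hdeg su.ad hd0 hdT (by positivity) hws
    ((hLSQ.diff Q le_rfl).mono hbwT) ((hinj Q le_rfl).mono hbwT)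
    (fun w hw => hLEA1 Q le_rfl w (hbwT hw)) (H.sys.diff (Q + 1) le_rfl)
    (fun w hw => H.sys.rel Q (by omega) w hw.1) hys hlim hbranch herr
  have ht0 : 0 < t := lt_of_lt_of_le (by positivity) ht1
  set w₀ : ℂ := ws + ((t / (2 * T (Q + 1)) : ℝ) : ℂ) * (0 - ws) with hw₀
  have hevt' := hevt w₀ rfl
  rw [sub_zero] at hws
  have hnorm : ‖w₀‖ + t / 2 ≤ T (Q + 1) := by
    have h1 : w₀ = ((1 - t / (2 * T (Q + 1)) : ℝ) : ℂ) * ws := by
      rw [hw₀]
      push_cast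
      ring
    have h2 : 0 ≤ 1 - t / (2 * T (Q + 1)) := by
      rw [sub_nonneg, div_le_one (by positivity)]
      linarith
    rw [h1, norm_mul, hws, Complex.norm_real, Real.norm_of_nonneg h2]
    have h3 : (1 - t / (2 * T (Q + 1))) * T (Q + 1) = T (Q + 1) - t / 2 := by
      field_simp
    rw [h3]
    linarith
  have hw₀b : w₀ ∈ ball (0 : ℂ) (T (Q + 1)) := by
    rw [mem_ball, dist_eq_norm, sub_zero]
    linarith
  obtain ⟨hsum, htau⟩ := hPT3 n k f P B R E η h r₀ χ G0 PP M T G (Q + 1) H (Q + 1) (by omega)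
    le_rfl w₀ (t / 2) (by linarith) hnorm
  obtain ⟨-, hLEI2, -, -⟩ := hLEI f P B G (ball 0 (T (Q + 1))) (Q + 1) su.ad isOpen_ball hLSQ1
  have hbrv := (hLEI2 Q (by omega) w₀ hw₀b).2
  rw [hbrv] at hevt'
  set S : ℝ := ∑ q ∈ Finset.Icc 1 (Q + 1), lev B G q w₀ with hS
  have hlevS : ‖deriv (G Q) w₀ ^ 2 * B (G Q w₀) - tau B G (Q + 1) w₀‖ ≤ S := by
    have h1 : lev B G (Q + 1) w₀ ≤ S :=
      Finset.single_le_sum (f := fun q => lev B G q w₀)
        (fun q _ => norm_nonneg _) (Finset.mem_Icc.2 ⟨by omega, le_rfl⟩)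
    exact h1
  set e : ℝ := eT M E η / t ^ 2 with he
  have he0 : 0 ≤ e := by positivity
  have hS2 : S ≤ 4 * e := by
    have h1 : eT M E η / (t / 2) ^ 2 = 4 * e := by
      rw [he]
      field_simp
      ring
    linarith
  have hesmall : e ≤ 1 / 4 ^ 40 := by
    have h1 : d ^ 2 / (4 ^ n) ^ 2 ≤ t ^ 2 := by
      rw [← div_pow]
      exact pow_le_pow_left₀ (by positivity) ht1 2
    have hn1 : (1 : ℝ) ≤ n := by exact_mod_cast (by omega : 1 ≤ n)
    have h2 : e3 n M h r₀ ≤ (1 / 4 ^ 40) * (d ^ 2 / (4 ^ n) ^ 2) := by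
      unfold e3 cn
      rw [← hd]
      have h3 : (4 : ℝ) ^ (40 + 2 * n) = 4 ^ 40 * (4 ^ n) ^ 2 := by
        rw [pow_add, pow_mul, ← pow_mul, ← pow_mul, mul_comm n 2]
      have h4 : (d ^ 2 / ((4 : ℝ) ^ (40 + 2 * n) * (n : ℝ) ^ 2)) =
          (1 / 4 ^ 40) * (d ^ 2 / (4 ^ n) ^ 2) / (n : ℝ) ^ 2 := by
        rw [h3]
        field_simp
      rw [h4]
      apply div_le_self (by positivity)
      nlinarith
    rw [he, div_le_iff₀ (by positivity)]
    calc eT M E η ≤ e3 n M h r₀ := hε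
      _ ≤ (1 / 4 ^ 40) * (d ^ 2 / (4 ^ n) ^ 2) := h2
      _ ≤ (1 / 4 ^ 40) * t ^ 2 := by gcongr
  have hlow : 1 - 4 * e ≤ ‖tau B G (Q + 1) w₀‖ := by
    have h1 := norm_sub_norm_le (1 : ℂ) (1 - tau B G (Q + 1) w₀)
    rw [norm_one, sub_sub_cancel, norm_sub_rev] at h1
    linarith
  have hup : ‖tau B G (Q + 1) w₀‖ ≤ 4 ^ 21 * (4 * e + 100 * e) := by
    refine hevt'.trans ?_
    have h1 : 100 * (((M : ℝ) + 1) * E) / t ^ 2 ≤ 100 * e := by
      rw [he, mul_div_assoc]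
      apply mul_le_mul_of_nonneg_left _ (by norm_num)
      gcongr
    have h2 : ‖deriv (G Q) w₀ ^ 2 * B (G Q w₀) - tau B G (Q + 1) w₀‖ +
        100 * (((M : ℝ) + 1) * E) / t ^ 2 ≤ 4 * e + 100 * e := by linarith
    exact mul_le_mul_of_nonneg_left h2 (by positivity)
  have hfin : (4 : ℝ) ^ 21 * (4 * e + 100 * e) + 4 * e < 1 := by
    have h1 : (4 : ℝ) ^ 21 * (4 * e + 100 * e) + 4 * e = (4 ^ 21 * 104 + 4) * e := by ring
    rw [h1]
    calc ((4 : ℝ) ^ 21 * 104 + 4) * e ≤ (4 ^ 21 * 104 + 4) * (1 / 4 ^ 40) := by gcongr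
      _ < 1 := by norm_num
  linarith

end XPS
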