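import Pool.Agent.helper54.XP.SpecS

/-! xp:LEAX (adapted from helper36/PP/LEA.lean) -/

set_option autoImplicit false

open Complex Metric Set Filter Topology MeasureTheory
open PPS (fd fdd pre TT CV Br cn)
open MPS (PsiM)

noncomputable section

namespace XPS

theorem LEAX_B {P : Set ℂ} {B : ℂ → ℂ} (hP : DifferentiableOn ℂ B Pᶜ) (F : ℂ → ℂ) (Ω : Set ℂ)
    (hF : DifferentiableOn ℂ F Ω) (h : ∀ w ∈ Ω, F w ∉ P) : DifferentiableOn ℂ (fun w => B (F w)) Ω :=
  hP.comp hF fun w hw => h w hw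

theorem LEAX : LEAX_stmt := by
  intro f P B G Ω Q hcyc hO hL
  have h1 : ∀ q ≤ Q, ∀ w ∈ Ω, G q w ∉ P := by
    intro q
    induction q with
    | zero => intro _ w hw; exact hL.nat0.av w hw
    | succ q ih =>
      intro hq w hw he
      refine ih (by omega) w hw ?_
      rw [← (hL.rel q (by omega) w hw).1]
      exact hcyc.inv _ he
  have h2 : ∀ q ≤ Q, ∀ w ∈ Ω, ∀ y : ℂ, f.eval y = G q w → y ∉ P := by
    intro q hq w hw y hy he
    refine h1 q hq w hw ?_
    rw [← hy]
    exact hcyc.inv _ he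
  have hd : ∀ q ≤ Q, DifferentiableOn ℂ (fun w => deriv (G q) w ^ 2) Ω := fun q hq =>
    ((hL.diff q hq).deriv hO).pow 2
  have h4 : ∀ q < Q, ∀ w ∈ Ω, deriv (G q) w = fd f (G (q + 1) w) * deriv (G (q + 1)) w := by
    intro q hq w hw
    have h1 : DifferentiableAt ℂ (G (q + 1)) w := (hL.diff (q + 1) hq).differentiableAt (hO.mem_nhds hw)
    have h2 : HasDerivAt (fun z => f.eval (G (q + 1) z))
        (f.derivative.eval (G (q + 1) w) * deriv (G (q + 1)) w) w :=
      (f.hasDerivAt (G (q + 1) w)).comp w h1.hasDerivAt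
    have h3 : G q =ᶠ[𝓝 w] fun z => f.eval (G (q + 1) z) := by
      filter_upwards [hO.mem_nhds hw] with z hz
      exact ((hL.rel q hq z hz).1).symm
    rw [h3.deriv_eq, h2.deriv]
    rfl
  refine ⟨h1, h2, fun q hq => ?_, h4, ?_⟩
  · exact (hd q hq).mul (LEAX_B hcyc.dif (G q) Ω (hL.diff q hq) (h1 q hq))
  · intro q
    induction q with
    | zero =>
      intro _ w hw h0
      have := hL.nat0.eq w hw
      rw [h0] at this
      norm_num at this
    | succ q ih =>
      intro hq w hw h0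
      apply ih (by omega) w hw
      rw [h4 q (by omega) w hw, h0, mul_zero]

end XPS
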