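import Pool.Agent.helper54.XP.SpecS

/-! xp:LEIX (adapted from helper36/PP/LEI.lean) -/

set_option autoImplicit false

open Complex Metric Set Filter Topology MeasureTheory
open PPS (fd fdd pre TT CV Br cn)
open MPS (PsiM)

noncomputable section

namespace XPS

theorem LEIX_sum (f : Polynomial ℂ) (B : ℂ → ℂ) (G : ℂ → ℂ) (w z : ℂ) :
    ((pre f z).map (brv f B G w)).sum = deriv G w ^ 2 * TT f (B) z := by
  unfold TT
  rw [← Multiset.sum_map_mul_left]
  refine congrArg Multiset.sum (Multiset.map_congr rfl fun y _ => ?_)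
  unfold brv
  rw [div_pow]
  ring

theorem LEIX (hPRB : PPS.PRB_stmt) (hLEA : LEAX_stmt) : LEIX_stmt := by
  intro f P B G Ω Q hc hΩ hL
  obtain ⟨hA1, hA2, hA3, hder, hne⟩ := hLEA f P B G Ω Q hc hΩ hL
  refine ⟨fun w hw => hL.nat0.eq w hw, ?_, ?_, ?_⟩
  · intro q hq w hw
    refine ⟨((hPRB f hc.deg).1 _ _).2 (hL.rel q hq w hw).1, ?_⟩
    unfold brv tau
    rw [hder q hq w hw, mul_div_assoc, mul_comm (fd f (G (q + 1) w)),
      div_mul_cancel₀ _ (hL.rel q hq w hw).2]
  · intro q hq w hw
    rw [LEIX_sum]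
    unfold tau er
    ring
  · intro q hq w hw
    unfold Df
    rw [sub_mul]
    congr 1
    · rw [← Multiset.sum_map_mul_right]
      refine congrArg Multiset.sum (Multiset.map_congr rfl fun y _ => ?_)
      unfold brv
      rw [norm_mul, norm_pow, norm_div, div_pow]
      ring
    · unfold tau er
      rw [← mul_sub, norm_mul, norm_pow]
      ring_nf

end XPS
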