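import Pool.Agent.helper54.XP.SpecS

/-! xp:LVX (adapted from helper36/PP/LV.lean) -/

set_option autoImplicit false

open Complex Metric Set Filter Topology MeasureTheory
open PPS (fd fdd pre TT CV Br cn)
open MPS (PsiM)

noncomputable section

namespace XPS

theorem LVX_dens (f : Polynomial ℂ) (B : ℂ → ℂ) (G : ℕ → ℂ → ℂ) (q : ℕ)
    (w : ℂ) : dens f B (G q) w =
      Df f B (G q w) * ‖deriv (G q) w‖ ^ 2 + 2 * ‖deriv (G q) w ^ 2 * er f B (G q w)‖ := by
  unfold dens
  rw [norm_mul, norm_pow]
  ring

theorem LVX_norm_sum (s : Multiset ℂ) (F : ℂ → ℂ) : ‖(s.map F).sum‖ ≤ (s.map fun y => ‖F y‖).sum := by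
  induction s using Multiset.induction_on with
  | empty => simp
  | cons a s ih =>
    rw [Multiset.map_cons, Multiset.sum_cons, Multiset.map_cons, Multiset.sum_cons]
    exact (norm_add_le _ _).trans (by linarith)

theorem LVX_re_sum (s : Multiset ℂ) (F : ℂ → ℂ) : ((s.map F).sum).re = (s.map fun y => (F y).re).sum := by
  induction s using Multiset.induction_on with
  | empty => simp
  | cons a s ih =>
    rw [Multiset.map_cons, Multiset.sum_cons, Multiset.map_cons, Multiset.sum_cons, Complex.add_re, ih]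

/-- splitting off one element. -/
theorem LVX_split {M : Type*} [AddCommMonoid M] (s : Multiset ℂ) (y : ℂ) (hy : y ∈ s) (F : ℂ → M) :
    (s.map F).sum = F y + ((s.erase y).map F).sum := by
  rw [← Multiset.cons_erase hy, Multiset.map_cons, Multiset.sum_cons, Multiset.erase_cons_head]

/-- LV. -/
theorem LVX (hLEI : LEIX_stmt) (hMI : MIX_stmt) : LVX_stmt := by
  intro f P B G Ω Q hb hΩ hL
  obtain ⟨h0, h1, h2, h3⟩ := hLEI f P B G Ω Q hb hΩ hL
  have hnn : ∀ z, 0 ≤ Df f B z := (hMI f P B hb).2.2.2.2
  have hre : ∀ z : ℂ, z.re ≤ ‖z‖ := Complex.re_le_norm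
  -- the others, for one level
  have hoth : ∀ q < Q, ∀ w ∈ Ω,
      (((pre f (G q w)).erase (G (q + 1) w)).map fun y => ‖brv f B (G q) w y‖).sum =
        Df f B (G q w) * ‖deriv (G q) w‖ ^ 2 +
          ‖tau B G q w - deriv (G q) w ^ 2 * er f B (G q w)‖ - ‖tau B G (q + 1) w‖ := by
    intro q hq w hw
    obtain ⟨ha, hb'⟩ := h1 q hq w hw
    have e1 := h3 q hq.le w hw
    rw [LVX_split _ _ ha, hb'] at e1
    linarith
  have hothc : ∀ q < Q, ∀ w ∈ Ω,
      (((pre f (G q w)).erase (G (q + 1) w)).map fun y => brv f B (G q) w y).sum =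
        tau B G q w - tau B G (q + 1) w - deriv (G q) w ^ 2 * er f B (G q w) := by
    intro q hq w hw
    obtain ⟨ha, hb'⟩ := h1 q hq w hw
    have e1 := h2 q hq.le w hw
    rw [LVX_split _ _ ha, hb'] at e1
    linear_combination -e1
  have hA : ∀ Q' ≤ Q, ∀ w ∈ Ω, (‖tau B G Q' w‖ - (tau B G Q' w).re) +
    ∑ q ∈ Finset.range Q',
      (lev B G (q + 1) w - (tau B G q w - tau B G (q + 1) w).re) ≤
    ∑ q ∈ Finset.range Q', dens f B (G q) w := by
    intro Q'
    induction Q' with
    | zero =>
      intro _ w hw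
      simp [h0 w hw]
    | succ m ih =>
      intro hm w hw
      have ih' := ih (by omega) w hw
      have e1 := hoth m (by omega) w hw
      have e2 := hothc m (by omega) w hw
      have e3 := LVX_dens f B G m w
      have e4 := LVX_norm_sum ((pre f (G m w)).erase (G (m + 1) w)) (fun y => brv f B (G m) w y)
      rw [e2, e1] at e4
      rw [Finset.sum_range_succ, Finset.sum_range_succ, e3]
      set E := deriv (G m) w ^ 2 * er f B (G m w) with hE
      have e5 : lev B G (m + 1) w ≤
          ‖tau B G m w - tau B G (m + 1) w - E‖ + ‖E‖ := by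
        unfold lev
        rw [Nat.add_sub_cancel]
        have := norm_add_le (tau B G m w - tau B G (m + 1) w - E) E
        rwa [sub_add_cancel] at this
      have e6 := norm_sub_le (tau B G m w) E
      have e7 : (tau B G m w - tau B G (m + 1) w).re = (tau B G m w).re - (tau B G (m + 1) w).re :=
        Complex.sub_re _ _
      linarith
  have hlev : ∀ q w, 0 ≤ lev B G (q + 1) w - (tau B G q w - tau B G (q + 1) w).re := by
    intro q w
    unfold lev
    rw [Nat.add_sub_cancel]
    exact sub_nonneg.2 (hre _)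
  have hB : ∀ Q' ≤ Q, ∀ w ∈ Ω,
      ((pre f (G Q' w)).map fun y => ‖brv f B (G Q') w y‖ - (brv f B (G Q') w y).re).sum ≤
        ∑ q ∈ Finset.range (Q' + 1), dens f B (G q) w := by
    intro Q' hQ' w hw
    have e1 := h2 Q' hQ' w hw
    have e2 := h3 Q' hQ' w hw
    have e3 := hA Q' hQ' w hw
    have e4 : 0 ≤ ∑ q ∈ Finset.range Q',
        (lev B G (q + 1) w - (tau B G q w - tau B G (q + 1) w).re) :=
      Finset.sum_nonneg fun q _ => hlev q w
    rw [Finset.sum_range_succ, LVX_dens, e2, Multiset.sum_map_sub]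
    have e5 : (tau B G Q' w).re = ((pre f (G Q' w)).map fun y => (brv f B (G Q') w y).re).sum +
        (deriv (G Q') w ^ 2 * er f B (G Q' w)).re := by
      rw [← LVX_re_sum]
      conv_lhs => rw [e1]
      rw [Complex.add_re]
    have e6 := norm_sub_le (tau B G Q' w) (deriv (G Q') w ^ 2 * er f B (G Q' w))
    have e7 := hre (deriv (G Q') w ^ 2 * er f B (G Q' w))
    linarith
  refine ⟨hA, hB, ?_, ?_, ?_⟩
  · intro q w
    have e1 := hnn (G q w)
    unfold dens
    constructor
    · positivity
    · have : 0 ≤ Df f B (G q w) * ‖deriv (G q) w‖ ^ 2 := by positivity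
      nlinarith
  · intro q
    induction q with
    | zero =>
      intro _ w hw
      simp [h0 w hw]
    | succ m ih =>
      intro hm w hw
      have ih' := ih (by omega) w hw
      rw [Finset.sum_Icc_succ_top (by omega)]
      have e2 : tau B G (m + 1) w - 1 = (tau B G m w - 1) -
          (tau B G m w - tau B G (m + 1) w) := by ring
      have e3 : lev B G (m + 1) w = ‖tau B G m w - tau B G (m + 1) w‖ := by
        unfold lev
        rw [Nat.add_sub_cancel]
      rw [e2, e3]
      exact (norm_sub_le _ _).trans (add_le_add ih' le_rfl)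
  · intro q hq w hw
    have e1 := hoth q hq w hw
    have e2 := hA q hq.le w hw
    have e3 := norm_sub_le (tau B G q w) (deriv (G q) w ^ 2 * er f B (G q w))
    have e4 : 0 ≤ ∑ q ∈ Finset.range q,
        (lev B G (q + 1) w - (tau B G q w - tau B G (q + 1) w).re) :=
      Finset.sum_nonneg fun q _ => hlev q w
    have e5 := hre (tau B G (q + 1) w)
    have e6 := LVX_dens f B G q w
    have e7 : (tau B G q w - tau B G (q + 1) w).re = (tau B G q w).re - (tau B G (q + 1) w).re :=
      Complex.sub_re _ _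
    have e8 : ‖deriv (G q) w ^ 2 * er f B (G q w)‖ = ‖er f B (G q w)‖ * ‖deriv (G q) w‖ ^ 2 := by
      rw [norm_mul, norm_pow, mul_comm]
    rw [Finset.sum_range_succ, e6, e1, e7]
    have e9 : 0 ≤ ‖er f B (G q w)‖ * ‖deriv (G q) w‖ ^ 2 := by positivity
    rw [e8] at e3 ⊢
    linarith

end XPS
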