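import Pool.Agent.helper54.XP.SpecS
import Pool.Agent.helper74.MP.MA

/-!
# xp:MAX (adapted from helper95/PP/MA.lean)
-/

set_option autoImplicit false

open Complex Metric Set Filter Topology MeasureTheory
open PPS (fd fdd pre TT CV Br cn)
open MPS (PsiM)

noncomputable section

namespace XPS

/-- MAX. -/
theorem MAX (hMI : MIX_stmt) : MAX_stmt := by
  intro f P B R E had hE Q M Ω G hG hmult
  obtain ⟨-, -, hmer, hmDf, hpos⟩ := hMI f P B had
  have hS : ∀ q < Q, MeasurableSet (G q '' Ω q) := fun q hq =>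
    MPS.MA_meas (hG q hq).1 (hG q hq).2.1 (hG q hq).2.2.1
  have hSD : ∀ q < Q, G q '' Ω q ⊆ ball 0 R := fun q hq => (hG q hq).2.2.2.image_subset
  constructor
  · have h1 : ∀ q ∈ Finset.range Q, ∫⁻ w in Ω q, ENNReal.ofReal (dens f B (G q) w) =
        ∫⁻ z in G q '' Ω q, ENNReal.ofReal (Df f B z + 2 * ‖er f B z‖) := by
      intro q hq
      have hq' := hG q (Finset.mem_range.mp hq)
      exact MPS.MA_cov hq'.1 hq'.2.1 hq'.2.2.1 (fun z => Df f B z + 2 * ‖er f B z‖)
    rw [Finset.sum_congr rfl h1]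
    have hmeas : Measurable fun z => ENNReal.ofReal (Df f B z + 2 * ‖er f B z‖) :=
      (hmDf.add (hmer.norm.const_mul 2)).ennreal_ofReal
    refine (MPS.MA_mult hS measurableSet_ball hSD hmult hmeas).trans ?_
    gcongr
  · have h1 : ∀ q ∈ Finset.range Q,
        ∫⁻ w in Ω q, ENNReal.ofReal (‖er f B (G q w)‖ * ‖deriv (G q) w‖ ^ 2) =
        ∫⁻ z in G q '' Ω q, ENNReal.ofReal ‖er f B z‖ := by
      intro q hq
      have hq' := hG q (Finset.mem_range.mp hq)
      exact MPS.MA_cov hq'.1 hq'.2.1 hq'.2.2.1 (fun z => ‖er f B z‖)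
    rw [Finset.sum_congr rfl h1]
    refine (MPS.MA_mult hS measurableSet_ball hSD hmult hmer.norm.ennreal_ofReal).trans ?_
    gcongr
    refine le_trans (lintegral_mono fun z => ENNReal.ofReal_le_ofReal ?_) hE
    have h2 := hpos z
    have h3 := norm_nonneg (er f B z)
    linarith

end XPS
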