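import Pool.Agent.helper54.XP.SpecS
import Pool.Agent.helper69.PP.MI

/-!
# xp:MIX: measurability, positivity of the deficit (adapted from helper69/PP/MI.lean)
-/

set_option autoImplicit false

open Complex Metric Set Filter Topology MeasureTheory
open PPS (fd fdd pre TT CV Br cn)
open MPS (PsiM)

noncomputable section

namespace XPS

theorem MIX_B {f : Polynomial ℂ} {P : Set ℂ} {B : ℂ → ℂ} (h : AD f P B) : Measurable B := by
  refine ContinuousOn.measurable_of_countable_compl (s := Pᶜ) h.dif.continuousOn ?_
  rw [compl_compl]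
  exact h.fin.countable

theorem MIX : MIX_stmt := by
  intro f P B h
  have h1 := MIX_B h
  have h2 := PPS.MI_TT f h.deg B h1
  refine ⟨h1, h2, h1.sub h2, ?_, ?_⟩
  · have h3 := (PPS.MS f h.deg).2.1 (fun y => ‖B y‖ / ‖fd f y‖ ^ 2)
      (h1.norm.div ((PPS.MI_poly f.derivative).norm.pow_const 2))
    exact h3.sub h2.norm
  · intro z
    unfold Df
    have h4 := PPS.MI_pos (pre f z) f B
    unfold TT
    linarith

end XPS
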