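import Pool.Agent.helper54.XP.SpecS
import Pool.Agent.helper82.MP.REACH2

set_option autoImplicit false

/-! # Project v3, REACH3: reaching the flat disc (adapted from helper97/PP/REACH2.lean) -/

open Complex Metric Set Filter Topology MeasureTheory
open PPS (fd fdd pre TT CV Br cn)
open MPS (PsiM)

noncomputable section

namespace XPS

theorem REACH3 (hNPL : NPLX_stmt) (hLEA : LEAX_stmt) (hS3G : S3G_stmt) (hS3A : S3A_stmt)
    (hPT3 : PT3_stmt) : REACH3_stmt := by
  intro n k f P B R E η h r₀ χ G0 PP M T G Q μ hH hε hMu p r hp1 hpk hpQ hps hr1 hr2 hnd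
  by_contra hcon
  rw [not_le] at hcon
  have hSU := hH.su3
  have hh0 : 0 < h := hSU.h0
  have hsys := hH.sys
  obtain ⟨hs0, -, hchi, -, hε0, -, -, -, -, he3⟩ := hS3G n k f P B R E η h r₀ χ G0 PP M hSU
  -- radii
  have hTp : T p ≤ h := by
    have : ∀ q, q ≤ Q → T q ≤ h := by
      intro q
      induction q with
      | zero => intro _; exact hsys.t0
      | succ q ih => intro hq; exact (hsys.anti q hq).trans (ih (Nat.le_of_succ_le hq))
    exact this p hpQ
  -- the level system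
  obtain ⟨-, -, -, hLev, -, -, -⟩ := hS3A n k f P B R E η h r₀ χ G0 PP M T G Q hH
  have hlev := hLev p hpQ
  have hav := (hLEA f P B G _ p hSU.ad isOpen_ball hlev).1 p le_rfl
  have hpt := hPT3 n k f P B R E η h r₀ χ G0 PP M T G Q hH p hp1 hpQ
  have hdiff := hlev.diff p le_rfl
  obtain ⟨z, ⟨w₁, hw₁, hzw⟩, ⟨v₁, hv₁, hzv⟩⟩ := not_disjoint_iff.1 hnd
  have hwv : G p w₁ = χ v₁ := by rw [hzw, hzv]
  rw [mem_ball_zero_iff] at hw₁ hv₁
  -- the bound of `ε`
  have hεb : eT M E η ≤ h ^ 2 / 256 := hε.trans he3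
  -- open sets
  have hΩ : IsOpen (ball (0 : ℂ) (16 * h)) := isOpen_ball
  have hball : ∀ (v v' : ℂ) (s : ℝ), ‖v'‖ + s < 16 * h → v ∈ ball v' s →
      v ∈ ball (0 : ℂ) (16 * h) := by
    intro v v' s hs hv
    rw [mem_ball, dist_eq_norm] at hv
    rw [mem_ball_zero_iff]
    have e : v = (v - v') + v' := by ring
    have h1 := norm_add_le (v - v') v'
    rw [← e] at h1
    linarith
  -- the second path
  have second : ∀ w₂ v₂ : ℂ, ‖w₂‖ ≤ r - h / 8 → ‖v₂‖ < 17 / 8 * h → G p w₂ = χ v₂ →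
      ∃ v₃ : ℂ, ‖v₃‖ < 4 * h ∧ χ v₃ = G p 0 := by
    intro w₂ v₂ h1 h2 h3
    have hbound : ∀ t ∈ Icc (0 : ℝ) 1, ‖w₂ + t * (0 - w₂)‖ ≤ r - h / 8 := by
      intro t ht
      have hc := (convex_closedBall (0 : ℂ) (r - h / 8)).add_smul_sub_mem (x := w₂) (y := 0)
        (by rw [mem_closedBall_zero_iff]; exact h1)
        (by rw [mem_closedBall_zero_iff, norm_zero]; linarith) ht
      rw [mem_closedBall_zero_iff, Complex.real_smul] at hc
      exact hc
    have hlen : (∫ t in (0 : ℝ)..1, ‖(0 : ℂ) - w₂‖ * Real.sqrt ‖deriv (G p) (w₂ + t * (0 - w₂)) ^ 2 *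
        B (G p (w₂ + t * (0 - w₂)))‖) ≤ 3 / 2 * h := by
      have hh : ∀ t ∈ Set.uIoc (0 : ℝ) 1, ‖‖(0 : ℂ) - w₂‖ * Real.sqrt ‖deriv (G p) (w₂ + t * (0 - w₂)) ^ 2 *
          B (G p (w₂ + t * (0 - w₂)))‖‖ ≤ 3 / 2 * h := by
        intro t ht
        rw [uIoc_of_le zero_le_one] at ht
        have h4 := hbound t ⟨ht.1.le, ht.2⟩
        obtain ⟨h5, h6⟩ := hpt (w₂ + t * (0 - w₂)) (h / 8) (by linarith) (by
          linarith)
        have h7 : eT M E η / (h / 8) ^ 2 ≤ 1 / 4 := by
          rw [div_le_iff₀ (by positivity)]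
          nlinarith [hεb]
        have h8 : ‖tau B G p (w₂ + t * (0 - w₂)) - 1‖ ≤ 1 / 4 := h6.trans (h5.trans h7)
        have h9 : Real.sqrt ‖tau B G p (w₂ + t * (0 - w₂))‖ ≤ 3 / 2 := by
          refine (MPS.REACH2_sqrt).trans ?_
          have : Real.sqrt ‖tau B G p (w₂ + t * (0 - w₂)) - 1‖ ≤ 1 / 2 := by
            apply Real.sqrt_le_iff.2
            refine ⟨by norm_num, h8.trans (by norm_num)⟩
          linarith
        have h10 : ‖(0 : ℂ) - w₂‖ ≤ h := by
          rw [norm_sub_rev, sub_zero]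
          linarith
        rw [Real.norm_of_nonneg (by positivity)]
        have h11 := mul_le_mul h10 h9 (Real.sqrt_nonneg _) (by linarith)
        have h12 : ‖(0 : ℂ) - w₂‖ * Real.sqrt ‖deriv (G p) (w₂ + t * (0 - w₂)) ^ 2 *
          B (G p (w₂ + t * (0 - w₂)))‖ ≤ h * (3 / 2) := h11
        linarith
      have := intervalIntegral.norm_integral_le_of_norm_le_const hh
      rw [sub_zero, abs_one, mul_one] at this
      exact (le_abs_self _).trans this
    obtain ⟨v₃, h4, h5⟩ := hNPL P B χ (G p) _ (ball 0 (T p)) v₂ w₂ 0 (7 / 4 * h) hSU.ad.fin hSU.ad.dif hΩ isOpen_ball hSU.nat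
      (fun v hv => hball v v₂ _ (by linarith) hv) hdiff hav
      ((convex_ball (0 : ℂ) (T p)).segment_subset (by rw [mem_ball_zero_iff]; linarith)
        (by rw [mem_ball_zero_iff, norm_zero]; linarith)) h3 (by linarith)
    refine ⟨v₃, ?_, h5⟩
    have : v₃ = (v₃ - v₂) + v₂ := by ring
    rw [this]
    exact (norm_add_le _ _).trans_lt (by linarith)
  -- the first path
  have first : ∃ w₂ v₂ : ℂ, ‖w₂‖ ≤ r - h / 8 ∧ ‖v₂‖ < 17 / 8 * h ∧ G p w₂ = χ v₂ := by
    by_cases hw : ‖w₁‖ ≤ r - h / 8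
    · exact ⟨w₁, v₁, hw, by linarith, hwv⟩
    · rw [not_le] at hw
      set a := ‖w₁‖ with ha
      have ha0 : 0 < a := by linarith
      set κ : ℝ := (r - h / 8) / a with hκ
      have hκ0 : 0 < κ := div_pos (by linarith) ha0
      have hκ1 : κ < 1 := (div_lt_one ha0).2 hw
      have hκa : κ * a = r - h / 8 := div_mul_cancel₀ _ ha0.ne'
      set w₂ : ℂ := κ * w₁ with hw₂
      have hw₂x : ‖w₂‖ = r - h / 8 := by
        rw [hw₂, norm_mul, Complex.norm_real, Real.norm_of_nonneg hκ0.le, ← ha, hκa]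
      have hl : ‖w₂ - w₁‖ = a - (r - h / 8) := by
        have e : w₂ - w₁ = -(((1 - κ : ℝ) : ℂ) * w₁) := by
          rw [hw₂]
          push_cast
          ring
        rw [e, norm_neg, norm_mul, Complex.norm_real, Real.norm_of_nonneg (by linarith), ← ha]
        linear_combination (-1 : ℝ) * hκa
      have hpath : ∀ t ∈ Icc (0 : ℝ) 1, ‖w₁ + t * (w₂ - w₁)‖ = a - t * (a - (r - h / 8)) := by
        intro t ht
        have e : w₁ + t * (w₂ - w₁) = ((1 - t * (1 - κ) : ℝ) : ℂ) * w₁ := by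
          rw [hw₂]
          push_cast
          ring
        have h0 : 0 ≤ 1 - t * (1 - κ) := by nlinarith [ht.1, ht.2]
        rw [e, norm_mul, Complex.norm_real, Real.norm_of_nonneg h0, ← ha]
        linear_combination t * hκa
      have hlen := MPS.REACH2_B (fun t => ‖w₂ - w₁‖ * Real.sqrt ‖deriv (G p) (w₁ + t * (w₂ - w₁)) ^ 2 *
          B (G p (w₁ + t * (w₂ - w₁)))‖)
        (fun t => ENNReal.ofReal (2 / (Real.sqrt Real.pi * t)) *
          (μ (Ioo (h - r + t / 2) (h - r + 3 * t / 2))) ^ (1 / 2 : ℝ))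
        (a - (r - h / 8)) (r - a) (h / 8) (by linarith) (by linarith) (by linarith) (by
          intro t ht
          refine ⟨by positivity, ?_⟩
          have hn := hpath t ⟨ht.1.le, ht.2.le⟩
          set w := w₁ + t * (w₂ - w₁) with hwdef
          have hpos : 0 < r - a + (a - (r - h / 8)) * t := by
            have : 0 < (a - (r - h / 8)) * t := mul_pos (by linarith) ht.1
            linarith
          have hm := hMu p hp1 hpQ (h - r) (r - a + (a - (r - h / 8)) * t) w (by linarith) hpos (by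
            rw [hn]
            ring)
          obtain ⟨-, h6⟩ := hpt w (r - a + (a - (r - h / 8)) * t) hpos (by
            rw [hn]
            have : a - t * (a - (r - h / 8)) + (r - a + (a - (r - h / 8)) * t) = r := by ring
            rw [this]
            exact hr2)
          have h7 := MPS.REACH2_F (norm_nonneg (tau B G p w - 1)) hpos
            ((ENNReal.ofReal_le_ofReal h6).trans hm)
          rw [hl]
          have h8 : ENNReal.ofReal ((a - (r - h / 8)) * Real.sqrt ‖deriv (G p) w ^ 2 * B (G p w)‖) ≤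
              ENNReal.ofReal ((a - (r - h / 8)) + (a - (r - h / 8)) * Real.sqrt ‖tau B G p w - 1‖) := by
            apply ENNReal.ofReal_le_ofReal
            have h9 : Real.sqrt ‖deriv (G p) w ^ 2 * B (G p w)‖ ≤ 1 + Real.sqrt ‖tau B G p w - 1‖ :=
              MPS.REACH2_sqrt (z := tau B G p w)
            have h10 := mul_le_mul_of_nonneg_left h9 (by linarith : (0 : ℝ) ≤ a - (r - h / 8))
            linarith
          refine h8.trans ?_
          rw [ENNReal.ofReal_add (by linarith) (mul_nonneg (by linarith) (Real.sqrt_nonneg _)),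
            ENNReal.ofReal_mul (by linarith)]
          exact add_le_add le_rfl (mul_le_mul' le_rfl h7))
      have hlt : ENNReal.ofReal (a - (r - h / 8)) + PsiM μ (h / 8) (h - r) <
          ENNReal.ofReal (h / 8) + ENNReal.ofReal h :=
        ENNReal.add_lt_add_of_le_of_lt ENNReal.ofReal_ne_top (ENNReal.ofReal_le_ofReal (by linarith)) hcon
      rw [← ENNReal.ofReal_add (by linarith) hh0.le] at hlt
      have hlt2 := hlen.trans_lt hlt
      have hlt3 := (ENNReal.ofReal_lt_ofReal_iff (by linarith)).1 hlt2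
      obtain ⟨v₂, h4, h5⟩ := hNPL P B χ (G p) _ (ball 0 (T p)) v₁ w₁ w₂ (h / 8 + h) hSU.ad.fin hSU.ad.dif hΩ isOpen_ball
        hSU.nat (fun v hv => hball v v₁ _ (by linarith) hv) hdiff hav
        ((convex_ball (0 : ℂ) (T p)).segment_subset (by rw [mem_ball_zero_iff]; linarith)
          (by rw [mem_ball_zero_iff, hw₂x]; linarith)) hwv hlt3
      refine ⟨w₂, v₂, hw₂x.le, ?_, h5.symm⟩
      have : v₂ = (v₂ - v₁) + v₁ := by ring
      rw [this]
      exact (norm_add_le _ _).trans_lt (by linarith)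
  obtain ⟨w₂, v₂, h1, h2, h3⟩ := first
  obtain ⟨v₃, h4, h5⟩ := second w₂ v₂ h1 h2 h3
  have h6 := hchi v₃ (by rw [mem_ball_zero_iff]; linarith)
  rw [h5, hsys.val p hpQ] at h6
  have h7 := hSU.hPP p hp1 hpk hps
  have h8 : 11 / 10 * ‖deriv χ 0‖ * ‖v₃‖ ≤ 11 / 10 * ‖deriv χ 0‖ * (4 * h) :=
    mul_le_mul_of_nonneg_left h4.le (by positivity)
  have h9 : 0 < ‖deriv χ 0‖ * h := mul_pos hs0 hh0
  nlinarith [h6, h7, h8, h9]

end XPS
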