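import Pool.Agent.helper54.XP.SpecS

/-!
# v3:S3A: structure of the system (adapted from helper51/PP/P2A.lean)
-/

set_option autoImplicit false

open Complex Metric Set Filter Topology MeasureTheory
open PPS (fd fdd pre TT CV Br cn)
open MPS (PsiM)

noncomputable section

namespace XPS

theorem S3A_card (F PP : Finset ℕ) (M : ℕ) (hM : PP.card ≤ M)
    (h : ∀ a ∈ F, ∀ b ∈ F, a < b → b - a ∈ PP) : F.card ≤ M + 1 := by
  rcases F.eq_empty_or_nonempty with rfl | hne
  · simp
  · set m := F.min' hne with hm
    have hmF : m ∈ F := F.min'_mem hne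
    have h1 : (F.erase m).card ≤ PP.card := by
      refine Finset.card_le_card_of_injOn (fun b => b - m) ?_ ?_
      · intro b hb
        have hb' : b ∈ F.erase m := hb
        rw [Finset.mem_erase] at hb'
        have h2 : m ≤ b := F.min'_le b hb'.2
        exact h m hmF b hb'.2 (lt_of_le_of_ne h2 (Ne.symm hb'.1))
      · intro a ha b hb hab
        have ha' : a ∈ F.erase m := ha
        have hb' : b ∈ F.erase m := hb
        rw [Finset.mem_erase] at ha' hb'
        have h2 : m ≤ a := F.min'_le a ha'.2
        have h3 : m ≤ b := F.min'_le b hb'.2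
        have h4 : a - m = b - m := hab
        omega
    rw [Finset.card_erase_of_mem hmF] at h1
    omega

theorem S3A (hLUN : PPS.LUN_stmt) (hS3G : S3G_stmt) : S3A_stmt := by
  intro n k f P B R E η h r₀ χ G0 PP M T G Q hH
  obtain ⟨h2, hsys, hQk⟩ := hH
  obtain ⟨-, hinj, -⟩ := hS3G n k f P B R E η h r₀ χ G0 PP M h2
  have hr0 := h2.r0
  have hr1 := h2.r1
  have hh0 := h2.h0
  set x : ℂ := 0 with hx
  -- monotonicity
  have hanti : ∀ q q', q ≤ q' → q' ≤ Q → T q' ≤ T q := by
    intro q q' hqq
    induction q', hqq using Nat.le_induction with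
    | base => intro _; exact le_rfl
    | succ m hm ih =>
      intro hmQ
      exact (hsys.anti m (by omega)).trans (ih (by omega))
  have hTρ : ∀ q ≤ Q, T q ≤ h := fun q hq => (hanti 0 q (by omega) hq).trans hsys.t0
  have hT16 : ∀ q ≤ Q, T q ≤ 16 * h := fun q hq => (hTρ q hq).trans (by linarith)
  have hrel : ∀ q < Q, ∀ w ∈ ball x (T (q + 1)), f.eval (G (q + 1) w) = G q w ∧
      fd f (G (q + 1) w) ≠ 0 := hsys.rel
  have hiter : ∀ d q, q + d ≤ Q → ∀ w ∈ ball x (T (q + d)),
      (fun z : ℂ => f.eval z)^[d] (G (q + d) w) = G q w := by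
    intro d
    induction d with
    | zero => intro q _ w _; rfl
    | succ d ih =>
      intro q hq w hw
      rw [Function.iterate_succ_apply]
      have h1 := (hrel (q + d) (by omega) w hw).1
      change (fun z : ℂ => f.eval z)^[d] (f.eval (G (q + d + 1) w)) = G q w
      rw [h1]
      exact ih q (by omega) w (ball_subset_ball (hanti (q + d) (q + (d + 1)) (by omega) hq) hw)
  have hiter0 : ∀ q ≤ Q, ∀ w ∈ ball x (T q),
      (fun z : ℂ => f.eval z)^[q] (G q w) = χ w := by
    intro q hq w hw
    have h1 := hiter q 0 (by omega) w (by rwa [zero_add])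
    rw [zero_add, hsys.g0] at h1
    exact h1
  -- the centre
  have hw₀ball : ∀ q ≤ Q, x ∈ ball x (T q) := fun q hq => mem_ball_self (hsys.pos q hq)
  -- first claim
  have c1 : ∀ q ≤ Q, EqOn (G q) (G0 q) (ball x (min r₀ (T q))) := by
    intro q
    induction q with
    | zero =>
      intro _ w hw
      rw [hsys.g0]
      exact (h2.t0 (ball_subset_ball (min_le_left _ _) hw)).symm
    | succ q ih =>
      intro hq
      have hs1 : ball x (min r₀ (T (q + 1))) ⊆ ball x r₀ := ball_subset_ball (min_le_left _ _)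
      have hs2 : ball x (min r₀ (T (q + 1))) ⊆ ball x (T (q + 1)) := ball_subset_ball (min_le_right _ _)
      have hs3 : ball x (min r₀ (T (q + 1))) ⊆ ball x (min r₀ (T q)) :=
        ball_subset_ball (min_le_min le_rfl (hanti q (q + 1) (by omega) hq))
      refine hLUN f (ball x (min r₀ (T (q + 1)))) (G (q + 1)) (G0 (q + 1)) x isOpen_ball
        (convex_ball _ _).isPreconnected ((hsys.diff (q + 1) hq).continuousOn.mono hs2)
        ((h2.tdiff (q + 1) (by omega)).continuousOn.mono hs1) ?_ ?_
        (mem_ball_self (lt_min hr0 (hsys.pos (q + 1) hq))) (hsys.val (q + 1) hq)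
      · intro z hz
        have h1 := (hrel q (by omega) z (hs2 hz)).1
        have h3 := (h2.trel q (by omega) z (hs1 hz)).1
        rw [h1, h3]
        exact ih (by omega) (hs3 hz)
      · intro z hz
        exact (hrel q (by omega) z (hs2 hz)).2
  -- injectivity
  have c2 : ∀ q ≤ Q, InjOn (G q) (ball x (T q)) := by
    intro q hq w hw w' hw' he
    have h1 := hiter0 q hq w hw
    have h3 := hiter0 q hq w' hw'
    rw [he, h3] at h1
    exact (hinj (ball_subset_ball (hT16 q hq) hw') (ball_subset_ball (hT16 q hq) hw) h1).symm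
  have c3 : ∀ q ≤ Q, MapsTo (G q) (ball x (T q)) (ball 0 R) := by
    intro q
    induction q with
    | zero =>
      intro hq w hw
      rw [hsys.g0]
      exact h2.mp (ball_subset_ball hsys.t0 hw)
    | succ q ih =>
      intro hq w hw
      have h1 := ih (by omega) (ball_subset_ball (hanti q (q + 1) (by omega) hq) hw)
      rw [← (hrel q (by omega) w hw).1, mem_ball_zero_iff] at h1
      rw [mem_ball_zero_iff]
      exact h2.inv _ h1
  have c4 : ∀ q ≤ Q, LevSys f P B G (ball x (T q)) q := by
    intro q hq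
    refine ⟨?_, ?_, ?_⟩
    · rw [hsys.g0]
      have hsub : ball x (T q) ⊆ ball 0 (16 * h) := ball_subset_ball (hT16 q hq)
      exact ⟨h2.nat.diff.mono hsub, fun w hw => h2.nat.av w (hsub hw),
        fun w hw => h2.nat.eq w (hsub hw)⟩
    · intro q' hq'
      exact (hsys.diff q' (by omega)).mono (ball_subset_ball (hanti q' q hq' hq))
    · intro q' hq' w hw
      exact hrel q' (by omega) w (ball_subset_ball (hanti (q' + 1) q (by omega) hq) hw)
  refine ⟨c1, c2, c3, c4, ?_, ?_, ?_⟩
  · intro z F hF
    refine S3A_card F PP M h2.hM ?_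
    intro q hq q' hq' hqq
    obtain ⟨hqQ, w, hw, hwz⟩ := hF q hq
    obtain ⟨hqQ', w', hw', hwz'⟩ := hF q' hq'
    by_contra hne
    have h1 := hiter0 q (by omega) w (ball_subset_ball (hanti q (q + 1) (by omega) (by omega)) hw)
    have h3 := hiter q (q' - q) (by omega) w'
      (by
        have h4 : q' - q + q = q' := by omega
        rw [h4]
        exact ball_subset_ball (hanti q' (q' + 1) (by omega) (by omega)) hw')
    have h4 : q' - q + q = q' := by omega
    rw [h4, hwz'] at h3
    rw [hwz] at h1
    have h5 := hsys.disj (q' - q) (by omega) (by omega) hne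
    refine Set.disjoint_left.mp h5 ⟨w', ?_, rfl⟩ ⟨w, ?_, ?_⟩
    · exact ball_subset_ball (hanti (q' - q + 1) (q' + 1) (by omega) (by omega)) hw'
    · exact ball_subset_ball (hTρ (q + 1) (by omega)) hw
    · rw [← h1, h3]
  · intro r hr hdis z F hF
    refine S3A_card F PP M h2.hM ?_
    intro q hq q' hq' hqq
    obtain ⟨hqQ, w, hw, hwz⟩ := hF q hq
    obtain ⟨hqQ', w', hw', hwz'⟩ := hF q' hq'
    by_contra hne
    have h1 := hiter0 q (by omega) w
      (ball_subset_ball (hr.trans (hanti q Q (by omega) le_rfl)) hw)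
    have h3 := hiter q (q' - q) (by omega) w'
      (by
        have h4 : q' - q + q = q' := by omega
        rw [h4]
        exact ball_subset_ball (hr.trans (hanti q' Q (by omega) le_rfl)) hw')
    have h4 : q' - q + q = q' := by omega
    rw [h4, hwz'] at h3
    rw [hwz] at h1
    have hwρ : w ∈ ball x h := ball_subset_ball (hr.trans (hTρ Q le_rfl)) hw
    by_cases hpQ : q' - q < Q
    · have h5 := hsys.disj (q' - q) (by omega) hpQ hne
      refine Set.disjoint_left.mp h5 ⟨w', ?_, rfl⟩ ⟨w, hwρ, ?_⟩
      · exact ball_subset_ball (hr.trans (hanti (q' - q + 1) Q (by omega) le_rfl)) hw'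
      · rw [← h1, h3]
    · have hpQ' : q' - q = Q := by omega
      rw [hpQ'] at hne h3
      have h5 := hdis (by omega) hne
      refine Set.disjoint_left.mp h5 ⟨w', hw', rfl⟩ ⟨w, hwρ, ?_⟩
      rw [← h1, h3]
  · have hev : ∀ q ≤ Q, G q =ᶠ[𝓝 x] G0 q := by
      intro q hq
      filter_upwards [isOpen_ball.mem_nhds (mem_ball_self (x := x) (lt_min hr0 (hsys.pos q hq)))] with z hz
      exact c1 q hq hz
    have hlev : ∀ q ∈ Finset.Icc 1 Q, lev B G q x = lev B G0 q x := by
      intro q hq
      rw [Finset.mem_Icc] at hq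
      unfold lev tau
      rw [(hev q hq.2).deriv_eq, (hev q hq.2).eq_of_nhds, (hev (q - 1) (by omega)).deriv_eq,
        (hev (q - 1) (by omega)).eq_of_nhds]
    rw [Finset.sum_congr rfl hlev]
    refine le_trans ?_ h2.tlev
    refine Finset.sum_le_sum_of_subset_of_nonneg (Finset.Icc_subset_Icc le_rfl hQk) ?_
    intro q _ _
    exact norm_nonneg _

end XPS
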