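import Pool.Agent.helper54.V3.All
import Pool.Agent.helper54.XP.AllS
import Pool.Agent.helper52.XP.BA1
import Pool.Agent.helper54.XP.BAD
import Pool.Agent.helper82.XP.ADH
import Pool.Agent.helper40.XP.CAF
import Pool.Agent.helper19.XP.SGN
import Pool.Agent.helper20.XP.NIX
import Pool.Agent.helper99.XP.EXB
import Pool.Agent.helper98.XP.REC
import Pool.Agent.helper70.XP.LPI
import Pool.Agent.helper99.XP.LPB
import Pool.Agent.helper51.XP.REG
import Pool.Agent.helper8.XP.CHT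
import Pool.Agent.helper1.XP.STP
import Pool.Agent.helper78.XP.ALC
import Pool.Agent.helper49.XP.CSZ
import Pool.Agent.helper61.XP.PHS
import Pool.Agent.helper31.XP.DLO
import Pool.Agent.helper99.XP.DSP
import Pool.Agent.helper63.XP.INJ
import Pool.Agent.helper43.XP.AFF
import Pool.Agent.helper77.XP.ISL
import Pool.Agent.helper18.XP.ISO
import Pool.Agent.helper33.XP.BEN

/-!
# Project xp: parts L, B: assembly
-/

set_option autoImplicit false

namespace XPL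

theorem CAF_l : CAF_stmt := CAF
theorem SGN_l : SGN_stmt := SGN XPS.NUX_x
theorem NIX_l : NIX_stmt := NIX XPS.LEAX_x XPS.LVX_x
theorem BA1_l : BA1_stmt := BA1
theorem BAD_l : BAD_stmt := BAD BA1_l
theorem ADH_l : ADH_stmt := ADH
theorem EXB_l : EXB_stmt := EXB CAF_l BA1_l BAD_l ADH_l V3A.NPK_v XPS.LVX_x
theorem REC_l : REC_stmt := REC CAF_l ADH_l V3A.KO3_v NIX_l
theorem LPI_l : LPI_stmt := LPI BA1_l BAD_l V3A.NLP_v V3A.PCO_v
theorem LPB_l : LPB_stmt := LPB LPI_l ADH_l V3A.TDE_v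
theorem REG_l : REG_stmt := REG
theorem CHT_l : CHT_stmt := CHT V3A.NCH_v LPB_l REG_l BA1_l
theorem STP_l : STP_stmt := STP CHT_l SGN_l EXB_l XPS.CS_x REC_l ADH_l BA1_l CAF_l
theorem ALC_l : ALC_stmt := ALC STP_l REG_l
theorem CSZ_l : CSZ_stmt := CSZ
theorem PHS_l : PHS_stmt := PHS CSZ_l CAF_l BA1_l
theorem DLO_l : DLO_stmt := DLO PHS_l CAF_l BA1_l
theorem DSP_l : DSP_stmt := DSP ALC_l DLO_l REG_l BA1_l V3A.TBX_v
theorem INJ_l : INJ_stmt := INJ DSP_l BA1_l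
theorem AFF_l : AFF_stmt := AFF INJ_l BA1_l V3A.KO0_v V3A.KO3_v
theorem ISL_l : ISL_stmt := ISL PHS_l BA1_l ADH_l XPS.LVX_x XPS.LEAX_x
theorem ISO_l : ISO_stmt := ISO ISL_l ALC_l
theorem BEN_l : BEN_stmt := BEN AFF_l BA1_l

end XPL
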