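import Pool.Agent.helper54.XP.DefsG
import Pool.Agent.helper54.V3.SpecG

/-!
# Project xp: (MP_af9036_an, MP_70a088_an), part G: labels, energy, last identity (case `ζ = 1`)

Paper: /team-store/MP_af9036_XP_helper60.md, sections 6 - 8 ([XP]) and /team-store/MP_af9036_V3_notes.md ([V3]). Definitions: Pool/Agent/helper54/XP/DefsG.lean.

RULES. File `Pool/Agent/<seat>/XP/XX.lean`: `import Pool.Agent.helper54.XP.SpecG`, `set_option autoImplicit false`,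
`open Complex Metric Set Filter Topology MeasureTheory XP`, `open V3S (UF)`, `noncomputable section`, `namespace XPG`,
`theorem XX (h : YY_stmt) ... : XX_stmt`.
Hypotheses may be: other statements of this file (no circles), all statements of Pool/Agent/helper54/XP/SpecL.lean (`XPL`), all `XPS.*_stmt`, all statements of V3 SpecE, SpecT (namespace `V3`),
`V3S.GZX_stmt`, all statements of `PPS`, `MPS` (all proved). Auxiliary lemmas prefixed `XX_`. No `sorry`, no double quotes in comments.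
MOST MODULES ARE COPIES of a proved file of project v3: (named in the docstring). Dictionary: `Seq n ra Cf D`, `LimOK D` -> `HG n C C' C'' D`, `LA C D` (same field names; `LA.sep` has the constant `1`);
`BA..`, `GBA` for one datum: `h n ra Cf (D m) (hS.good m)` -> `h n C (D m) (hS.ok m)`; `IsNat D.b D.g` -> `XPS.IsNat D.PP D.H`; `∀ l, x ≠ p l` for holomorphy of `B` -> `zz x ∉ PP`
(`XPL.ADH_stmt`). The differential `B` is `s (Bb + sg² r(zz))`; only `GPO, GZC, GZP, GZF` use the visible part `Bb`.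
-/

set_option autoImplicit false

open Complex Metric Set Filter Topology MeasureTheory XP
open V3S (UF)

noncomputable section

namespace XPG

/-- one good datum in case `ζ = 1`. -/
def OK (n : ℕ) (C : ℝ) (D : Dat) : Prop := (∃ A : ℝ, D.Good n C A) ∧ D.GA

theorem HG.ok {n : ℕ} {C C' C'' : ℝ} {D : ℕ → Dat} (h : HG n C C' C'' D) (m : ℕ) : OK n C (D m) := by
  obtain ⟨A, -, hA⟩ := h.hl.seq.good
  exact ⟨⟨A m, hA m⟩, h.sa.ga m⟩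

theorem HG.good {n : ℕ} {C C' C'' : ℝ} {D : ℕ → Dat} (h : HG n C C' C'' D) :
    ∃ A : ℕ → ℝ, Tendsto A atTop atTop ∧ ∀ m, (D m).Good n C (A m) := h.hl.seq.good

theorem HG.hK {n : ℕ} {C C' C'' : ℝ} {D : ℕ → Dat} (h : HG n C C' C'' D) (m : ℕ) : (D m).K = (D m).k := by
  unfold Dat.K
  rw [h.pa.N1 m, one_mul]

theorem LA.sep' {C : ℝ} {D : ℕ → Dat} (h : LA C D) : ∃ c₀ > (0 : ℝ), ∀ (m : ℕ) (i l : ZMod (D m).k), i ≠ l →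
    c₀ ≤ ‖(D m).p i - (D m).p l‖ := ⟨1, one_pos, h.sep⟩

/-! ## Algebra of one datum -/

/-- GBA: the `x`-plane (as helper51/V3/GBA.lean, helper62/V3/BA3.lean and the formula for `B` of helper?/V3/BA2.lean; `lam ≠ 0` from `GA.lam0`). Uses `XPL.BA1_stmt`.
PROOF. `F j`, `v` are polynomials (compositions). `v (p l) = 0` (BA1), `v' (p l) = (rho - 1)/lam`, `rho = exp lam` (`GA.hrho`). `Bb x = sg² ∑ (1/(zz x - b l)² + g l/(zz x - b l))`, `zz x - b l = sg (x - p l)`, `MPS.BB`. -/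
def GBA_stmt : Prop := ∀ (n : ℕ) (C : ℝ) (D : Dat), OK n C D →
  D.sg ≠ 0 ∧ (∀ z, D.zz (D.xx z) = z) ∧ (∀ x, D.xx (D.zz x) = x) ∧
  (∀ i j x, D.F (i + j) x = D.F i (D.F j x)) ∧ (∀ x, D.F 0 x = x) ∧
  (∀ (j : ℕ) (l : ZMod D.k), D.F j (D.p l) = D.p (l + j)) ∧ D.p 0 = 0 ∧
  (∀ j, ∃ Q : Polynomial ℂ, ∀ x, D.F j x = Q.eval x) ∧ (∃ Q : Polynomial ℂ, ∀ x, D.v x = Q.eval x) ∧
  (∀ l, D.v (D.p l) = 0 ∧ deriv D.v (D.p l) = (Complex.exp D.lam - 1) / D.lam) ∧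
  (∀ x, D.Bb x = ∑ l, (1 / (x - D.p l) ^ 2 + D.sg * D.g l / (x - D.p l))) ∧ D.lam ≠ 0 ∧
  Function.Injective D.p ∧ D.A 0 = 1 ∧
  (∀ i j x, deriv (D.F (i + j)) x = deriv (D.F i) (D.F j x) * deriv (D.F j) x) ∧
  (∀ x, D.F D.k x = x + D.lam * D.v x) ∧ (∀ j, Differentiable ℂ (D.F j)) ∧ Differentiable ℂ D.v ∧
  (∀ x, D.B x = (D.s : ℂ) * (D.Bb x + D.sg ^ 2 * D.r (D.zz x))) ∧
  (∀ x, (∀ l, x ≠ D.p l) → DifferentiableAt ℂ D.Bb x) ∧ (∀ l, D.zz (D.p l) = D.b l)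

/-- GEX: exactness (copy of helper54/V3/GEX.lean). Uses `XPL.BA1_stmt`, GBA. -/
def GEX_stmt : Prop := ∀ (n : ℕ) (C : ℝ) (D : Dat), OK n C D → ∀ l,
  deriv (deriv D.v) (D.p l) = -(Complex.exp D.lam * ((Complex.exp D.lam - 1) / D.lam)) * (D.sg * D.g l)

/-- GPO: the polynomials `v² Bb` and the form `v Bb` (copy of helper52/V3/GPO.lean). Uses GBA. -/
def GPO_stmt : Prop := ∀ (n : ℕ) (C : ℝ) (D : Dat), OK n C D → Complex.exp D.lam ≠ 1 →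
  ∃ Fp Vp Qp : Polynomial ℂ, (∀ x, D.v x = Vp.eval x) ∧ Vp ≠ 0 ∧
    (∀ x, (∀ l, x ≠ D.p l) → Fp.eval x = D.v x ^ 2 * D.Bb x) ∧
    (∀ l, Vp.rootMultiplicity (D.p l) = 1) ∧
    (∀ x, (∀ l, x ≠ D.p l) → D.v x * D.Bb x =
      (Complex.exp D.lam - 1) / D.lam * ∑ l, 1 / (x - D.p l) + Qp.eval x)

/-- GZC: the closed chain (copy of helper59/V3/GZC.lean). -/
def GZC_stmt : Prop := ∀ (n : ℕ) (C : ℝ) (D : Dat), OK n C D → ∀ (x₀ : ℂ) (l : ZMod D.k),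
  ∃ (γ : ℕ → ℝ → ℂ) (q : ℕ → ℕ), V3.Chain (2 * D.k) γ ∧ (∀ j, q j < D.k) ∧
    (∀ j < D.k, ∀ s : ℝ, γ (2 * j) s = D.F (q j) (x₀ + s * (D.F l.val x₀ - x₀))) ∧
    (∀ j < D.k, (∀ s : ℝ, γ (2 * j + 1) s = D.F (q (j + 1)) x₀) ∨
      (∀ s : ℝ, γ (2 * j + 1) s = D.F (q (j + 1)) (D.F D.k x₀ + s * (x₀ - D.F D.k x₀))))

/-! ## The facts of part L in case `ζ = 1` -/

/-- VLM: the limit of `v` (as helper62/V3/VLM.lean). Uses `XPL.DSP_stmt`, GBA, `V3.TMO_stmt`, `V3.TDE_stmt`, `XPL.LPI_stmt`.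
PROOF. DSP: `‖F k x - x‖ ≤ C₁ de = C₁ C'' ‖lam‖` (`K = k`), so `v` is bounded on `ball 0 ρ`; the rest as in V3. `far`: `GA.far` gives `x m`, `‖x m‖ = 1`, `‖v (x m) - x m‖ = 1/10`; limit point `x` of `x m` along `UF` (`V3.TUL_stmt` or compactness), uniform convergence of `v`. -/
def VLM_stmt : Prop := ∀ (n : ℕ) (C C' C'' : ℝ) (D : ℕ → Dat), HG n C C' C'' D →
  Differentiable ℂ (vin D) ∧
  (∀ K : Set ℂ, IsCompact K → TendstoUniformlyOn (fun m => (D m).v) (vin D) UF K ∧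
    TendstoUniformlyOn (fun m => deriv (D m).v) (deriv (vin D)) UF K) ∧
  (∀ p ∈ Pin D, vin D p = 0 ∧ deriv (vin D) p = 1) ∧
  (∃ x : ℂ, ‖x‖ = 1 ∧ ‖vin D x - x‖ = 1 / 10) ∧
  (∀ ρ > (0 : ℝ), ∃ C₁ : ℝ, ∀ᶠ m in UF, ∀ x ∈ ball (0 : ℂ) ρ, ‖(D m).v x‖ ≤ C₁)

/-- CMM: `v` and the iterates commute (copy of helper49/V3/CMM.lean). Uses VLM (last claim), `XPL.AFF_stmt`, GBA. -/
def CMM_stmt : Prop := ∀ (n : ℕ) (C C' C'' : ℝ) (D : ℕ → Dat), HG n C C' C'' D →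
  ∀ ρ > (0 : ℝ), ∀ ε > (0 : ℝ), ∀ᶠ m in UF, ∀ j ≤ (D m).k, ∀ x ∈ ball (0 : ℂ) ρ,
    ‖(D m).v ((D m).F j x) - deriv ((D m).F j) x * (D m).v x‖ ≤ ε * ‖(D m).A j‖

/-- IMG: images of discs, invisibility of `r` [XP, (8.4)]. Uses `XPL.AFF_stmt`, `XPL.BAD_stmt`, `XPL.BA1_stmt`.
PROOF. AFF with `ε = 1`: `‖F j' x‖ ≤ 2‖A j‖` on `ball 0 ρ`, so `‖F j x - p j‖ ≤ 2‖A j‖‖x‖` (mean value inequality, `F j 0 = p j`), `‖A j‖ R_0 ≤ C R_j` (BAD). So `‖zz (F j x) - b j‖ = R_0 ‖F j x - p j‖ ≤ 2 C ρ R_j < A m * R_j` eventually (`A m → ∞`, `V3S.UF_le`): `Good.invi` for `i = j`.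
`‖F j'‖² R_0² ‖r‖ ≤ 4 ‖A j‖² R_0² ‖r‖ ≤ 4 C² R_j² ‖r‖ ≤ 4 C²/A m`. -/
def IMG_stmt : Prop := ∀ (n : ℕ) (C C' C'' : ℝ) (D : ℕ → Dat), HG n C C' C'' D →
  ∀ ρ > (0 : ℝ), ∀ ε > (0 : ℝ), ∀ᶠ m in UF, ∀ j ≤ (D m).k, ∀ x ∈ ball (0 : ℂ) ρ,
    ‖(D m).zz ((D m).F j x)‖ < (D m).rad ∧ (D m).zz ((D m).F j x) ∉ (D m).P ∧
    ‖(D m).F j x - (D m).p (j : ZMod (D m).k)‖ * (D m).R 0 ≤ 2 * C * (D m).R (j : ZMod (D m).k) * ‖x‖ ∧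
    ‖deriv ((D m).F j) x ^ 2 * ((D m).sg ^ 2 * (D m).r ((D m).zz ((D m).F j x)))‖ ≤ ε

/-- LOA: assembly. Uses `XPL.LPI_stmt`, `XPL.BAD_stmt`, `XPL.BA1_stmt`, `XPL.INJ_stmt`, `XPL.AFF_stmt`, `XPL.ISO_stmt`, VLM, CMM, IMG. -/
def LOA_stmt : Prop := ∀ (n : ℕ) (C C' C'' : ℝ) (D : ℕ → Dat), HG n C C' C'' D → LA C D

/-! ## Labels -/

/-- GLB: label sequences (copy of helper93/V3/GLB.lean; `LA.sep'`). -/
def GLB_stmt : Prop := ∀ (n : ℕ) (C C' C'' : ℝ) (D : ℕ → Dat), HG n C C' C'' D → LA C D →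
  (∀ p ∈ Pin D, ∃ l, LabTo D l p) ∧ (∀ l p, LabTo D l p → p ∈ Pin D) ∧
  (∀ l (C : ℝ), (∀ᶠ m in UF, ‖(D m).p (l m)‖ ≤ C) → ∃ p ∈ Pin D, ‖p‖ ≤ C ∧ LabTo D l p) ∧
  (∀ l l' p, LabTo D l p → LabTo D l' p → ∀ᶠ m in UF, l m = l' m) ∧ LabTo D (fun _ => 0) 0 ∧
  (∀ p ∈ Pin D, ∀ p' ∈ Pin D, p ≠ p' → 1 ≤ ‖p - p'‖) ∧
  (∀ K : Set ℂ, IsCompact K → K ⊆ (Pin D)ᶜ → ∃ δ > (0 : ℝ), ∀ᶠ m in UF, ∀ x ∈ K, ∀ l, δ ≤ ‖(D m).p l - x‖)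

/-- GFK: `F k` is close to the identity (copy of helper70/V3/GFK.lean). Uses GBA. -/
def GFK_stmt : Prop := ∀ (n : ℕ) (C C' C'' : ℝ) (D : ℕ → Dat), HG n C C' C'' D → LA C D →
  ∀ ρ > (0 : ℝ), (∃ C : ℝ, ∀ᶠ m in UF, ∀ x ∈ ball (0 : ℂ) ρ, ‖(D m).v x‖ ≤ C ∧ ‖deriv (D m).v x‖ ≤ C) ∧
    ∀ ε > (0 : ℝ), ∀ᶠ m in UF, ∀ x ∈ ball (0 : ℂ) ρ,
      ‖(D m).F (D m).k x - x‖ ≤ ε ∧ ‖deriv ((D m).F (D m).k) x - 1‖ ≤ ε

/-- GAL: the limit maps `α_p`, first form (as helper72/V3/GAL.lean; the lower bound `1` of the limits is replaced by `1/C`, the claim `‖a‖ = 1` by `1/C ≤ ‖a‖`). Uses GBA, GLB, GFK, `V3.TUL_stmt`. -/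
def GAL_stmt : Prop := ∀ (n : ℕ) (C C' C'' : ℝ) (D : ℕ → Dat), HG n C C' C'' D → LA C D →
  ∃ A : ℂ → ℂ, AL0 C D A

/-- GAG: group law. Uses GBA, GLB.
PROOF. Labels `l → p`, `l' → p'` (GLB). `F l.val (p l') = p (l' + l)` (GBA), and it tends to `p + A p p'` (`AL0.unif`, `p l'` bounded): `LabTo D (l' + l) (p + A p p')`, so it is in `Pin D` (GLB). `A (l.val + l'.val) = deriv (F l.val) (p l') * A l'.val → A p * A p'`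
(chain rule, `F l'.val 0 = p l'`, `unif`, `tend`). `(l' + l).val = l.val + l'.val` or `l.val + l'.val - k` (`ZMod.val_add`); in the second case `A (l.val + l'.val) = A (l' + l).val * exp lam` (chain rule with `F k 0 = p k = 0`, `deriv (F k) 0 = 1 + lam deriv v 0 = exp lam`), `exp lam → 1`.
`tend` for the label `l' + l`: `A (l' + l).val → A (p + A p p')`. Uniqueness of limits. -/
def GAG_stmt : Prop := ∀ (n : ℕ) (C C' C'' : ℝ) (D : ℕ → Dat) (A : ℂ → ℂ), HG n C C' C'' D → LA C D → AL0 C D A →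
  ∀ p ∈ Pin D, ∀ p' ∈ Pin D, p + A p * p' ∈ Pin D ∧ A (p + A p * p') = A p * A p'

/-- GAN: `‖A p‖ = 1`. Uses GAG.
PROOF. Let `p ∈ Pin D`. By induction there are `p_n ∈ Pin D` with `A p_n = (A p)^n` (`p_0 = 0`, `p_(n+1) = p + A p * p_n`, GAG, `one`; `0 ∈ Pin D`: `LA.P0`). `1/C ≤ ‖A p‖^n` for all `n` (`low`), so `1 ≤ ‖A p‖`. The same for `-p/A p` with `A (-p/A p) = 1/A p` (`inv`). So `‖A p‖ = 1`. -/
def GAN_stmt : Prop := ∀ (n : ℕ) (C C' C'' : ℝ) (D : ℕ → Dat) (A : ℂ → ℂ), HG n C C' C'' D → LA C D → AL0 C D A → AL D A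

/-- GGR: group law and invariance (copy of helper23/V3/GGR.lean). Uses GBA, GLB, `XPL.LPI_stmt`, `XPL.REG_stmt`. -/
def GGR_stmt : Prop := ∀ (n : ℕ) (C C' C'' : ℝ) (D : ℕ → Dat) (A : ℂ → ℂ), HG n C C' C'' D → LA C D → AL D A →
  (∀ p ∈ Pin D, ∀ p' ∈ Pin D, p + A p * p' ∈ Pin D) ∧
  (∀ p ∈ Pin D, ∀ p' ∈ Pin D, p + A p * p' = p' + A p' * p) ∧
  (∀ p ∈ Pin D, ∀ x, vin D (p + A p * x) = A p * vin D x) ∧
  (∀ p ∈ Pin D, ∀ x ∉ Pin D, A p ^ 2 * Bin D (p + A p * x) = Bin D x)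

/-! ## Separation of copies and multiplicities -/

/-- GSE: if two copies meet, the points differ by some `α_p`, `p ≠ 0` (copy of helper3/V3/GSE.lean). Uses GBA, GLB, GFK. -/
def GSE_stmt : Prop := ∀ (n : ℕ) (C C' C'' : ℝ) (D : ℕ → Dat) (A : ℂ → ℂ), HG n C C' C'' D → LA C D → AL D A →
  ∀ (i j : ℕ → ℕ) (x x' : ℕ → ℂ) (ρ : ℝ) (X X' : ℂ),
  (∀ᶠ m in UF, i m < j m ∧ j m - i m < (D m).k ∧ j m ≤ (D m).k ∧ ‖x m‖ < ρ ∧ ‖x' m‖ < ρ ∧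
    (D m).F (i m) (x m) = (D m).F (j m) (x' m)) →
  Tendsto x UF (𝓝 X) → Tendsto x' UF (𝓝 X') →
  ∃ p ∈ Pin D, p ≠ 0 ∧ LabTo D (fun m => -((j m - i m : ℕ) : ZMod (D m).k)) p ∧ X' = p + A p * X

/-- GMF: multiplicity in case (F) (copy of helper27/V3/GMF.lean). Uses GSE, GLB, `V3.TUL_stmt`. -/
def GMF_stmt : Prop := ∀ (n : ℕ) (C C' C'' : ℝ) (D : ℕ → Dat) (A : ℂ → ℂ), HG n C C' C'' D → LA C D → AL D A →
  (Pin D).Finite → ∀ ρ > (0 : ℝ), ∀ᶠ m in UF, ∀ (z : ℂ) (S : Finset ℕ),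
    ((∀ j ∈ S, j < (D m).k) ∨ (∀ j ∈ S, 1 ≤ j ∧ j ≤ (D m).k)) → (∀ j ∈ S, ∃ x ∈ ball (0 : ℂ) ρ, (D m).F j x = z) →
    S.card ≤ (Pin D).ncard

/-- GM1: sets without coincidences have multiplicity one (copy of helper13/V3/GM1.lean). Uses GSE, `V3.TUL_stmt`. -/
def GM1_stmt : Prop := ∀ (n : ℕ) (C C' C'' : ℝ) (D : ℕ → Dat) (A : ℂ → ℂ), HG n C C' C'' D → LA C D → AL D A →
  ∀ (ρ δ : ℝ) (K : Set ℂ), 0 < δ → K ⊆ ball 0 ρ →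
    (∀ x ∈ K, ∀ x' ∈ K, ∀ p ∈ Pin D, p ≠ 0 → δ ≤ ‖x' - (p + A p * x)‖) →
    ∀ᶠ m in UF, ∀ (z : ℂ) (S : Finset ℕ),
      ((∀ j ∈ S, j < (D m).k) ∨ (∀ j ∈ S, 1 ≤ j ∧ j ≤ (D m).k)) → (∀ j ∈ S, ∃ x ∈ K, (D m).F j x = z) → S.card ≤ 1

/-- GMS: a small disc has multiplicity one [XP, (2.6)].
PROOF. Let `i ≠ j` be in `S`, `F i x = F j x' = z`, `‖x‖, ‖x'‖ < c = 1/(8C)`. `LA.img` (`ρ = 1`, third claim): `R_0 ‖z - p i‖ < R_i/4`, `R_0 ‖z - p j‖ < R_j/4`. The labels `i, j ∈ ZMod k` are different (`1 ≤ i, j ≤ k`), `R_0 ‖p i - p j‖ = ‖b i - b j‖ ≥ R_i, R_j` (`Good.sepr`; GBA: `zz (p l) = b l`): contradiction. -/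
def GMS_stmt : Prop := ∀ (n : ℕ) (C C' C'' : ℝ) (D : ℕ → Dat), HG n C C' C'' D → LA C D →
  ∀ᶠ m in UF, ∀ (z : ℂ) (S : Finset ℕ), (∀ j ∈ S, 1 ≤ j ∧ j ≤ (D m).k) →
    (∀ j ∈ S, ∃ x ∈ ball (0 : ℂ) (1 / (8 * C)), (D m).F j x = z) → S.card ≤ 1

/-- GHP: no poles in the copies of compact subsets of `(Pin D)ᶜ` (helper97/V3/GHP.lean for the points `p l`; `LA.img` for `P`). Uses GBA, GLB, GFK. -/
def GHP_stmt : Prop := ∀ (n : ℕ) (C C' C'' : ℝ) (D : ℕ → Dat), HG n C C' C'' D → LA C D →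
  ∀ K : Set ℂ, IsCompact K → K ⊆ (Pin D)ᶜ →
    ∀ᶠ m in UF, ∀ j ≤ (D m).k, ∀ x ∈ K, (D m).zz ((D m).F j x) ∉ (D m).PP ∧ ∀ l, (D m).F j x ≠ (D m).p l

/-- GTC: `T j → Bin` uniformly in `j ≤ k` on compact subsets of `(Pin D)ᶜ`, also at the zeros of the limit (copy of helper24/V3/GTC.lean). Uses `XPL.REG_stmt`, GBA, `XPL.ADH_stmt`, `V3.PCO_stmt`, GLB, GHP. -/
def GTC_stmt : Prop := ∀ (n : ℕ) (C C' C'' : ℝ) (D : ℕ → Dat), HG n C C' C'' D → LA C D →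
  ∀ K : Set ℂ, IsCompact K → K ⊆ (Pin D)ᶜ → ∀ ε > (0 : ℝ),
    ∀ᶠ m in UF, ∀ j ≤ (D m).k, ∀ x ∈ K, ‖(D m).T j x - Bin D x‖ ≤ ε

/-! ## Energy -/

/-- GEP: the pointwise inequality (copy of helper8/V3/GEP.lean; `k` is only a number of levels). Uses `XPS.LVX_stmt`, `MPS.NR_stmt`.
PROOF. As in V3, with `P` instead of the cycle: `f^k z ∉ P` gives `f^j z ∉ P` for `j ≤ k` (`AD.inv`). -/
def GEP_stmt : Prop := ∀ (k : ℕ) (f : Polynomial ℂ) (P : Set ℂ) (B : ℂ → ℂ), XPS.AD f P B →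
  ∀ z : ℂ, deriv ((fun y => f.eval y)^[k]) z ≠ 0 → (fun y => f.eval y)^[k] z ∉ P →
  B ((fun y => f.eval y)^[k] z) ≠ 0 →
  ‖deriv ((fun y => f.eval y)^[k]) z ^ 2 * B ((fun y => f.eval y)^[k] z) - B z‖ -
    ((deriv ((fun y => f.eval y)^[k]) z ^ 2 * B ((fun y => f.eval y)^[k] z) - B z) *
      (((‖deriv ((fun y => f.eval y)^[k]) z ^ 2 * B ((fun y => f.eval y)^[k] z)‖ : ℝ) : ℂ) /
        (deriv ((fun y => f.eval y)^[k]) z ^ 2 * B ((fun y => f.eval y)^[k] z)))).re ≤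
  ∑ q ∈ Finset.range k, XPS.dens f B ((fun y => f.eval y)^[k - q]) z

/-- GEI: the energy of one datum on compact subsets of `Reg D` (as helper58/V3/GEI.lean). Uses GEP, GFK, GHP, GTC, `XPS.MAX_stmt`, `XPS.MIX_stmt`, `XPL.BA1_stmt`, `XPL.ADH_stmt`, GBA.
PROOF. As in V3 for `H` and `P := PP`: `‖lam‖ en x ≤ ‖sg‖² ∑_q dens (φ_(k-q)) (zz x)`; MAX with `R = rad`, `E := s E` (ADH), `Ω q = zz '' Ω`, `G q = φ_(k-q)` (values in `ball 0 rad`: `LA.img`; injective: `LA.inj`), multiplicity `≤ M`: `‖lam‖ ∫_K en ≤ M s E ≤ M e ‖lam‖`. -/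
def GEI_stmt : Prop := ∀ (n : ℕ) (C C' C'' : ℝ) (D : ℕ → Dat), HG n C C' C'' D → LA C D →
  ∀ e : ℝ, 0 ≤ e → (∀ᶠ m in UF, (D m).s * (D m).E ≤ e * ‖(D m).lam‖) →
  ∀ (ρ : ℝ) (Ω : Set ℂ) (M : ℕ), IsOpen Ω → Ω ⊆ ball 0 ρ →
    (∀ᶠ m in UF, ∀ (z : ℂ) (J : Finset ℕ), (∀ j ∈ J, 1 ≤ j ∧ j ≤ (D m).k) →
      (∀ j ∈ J, ∃ x ∈ Ω, (D m).F j x = z) → J.card ≤ M) →
    ∀ K : Set ℂ, IsCompact K → K ⊆ Ω → K ⊆ Reg D → ∀ᶠ m in UF, ∫ x in K, en (D m) x ≤ M * e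

/-- GQL: convergence of `q` off the poles (copy of helper13/V3/GQL.lean; `XPL.LPB_stmt`, `XPL.LPI_stmt` replace LMB, LPI). Uses GBA, VLM, GLB, `XPL.LPB_stmt`, `XPL.LPI_stmt`, `XPL.ADH_stmt`. -/
def GQL_stmt : Prop := ∀ (n : ℕ) (C C' C'' : ℝ) (D : ℕ → Dat), HG n C C' C'' D → LA C D →
  ∀ K : Set ℂ, IsCompact K → K ⊆ (Pin D)ᶜ → ∀ ε > (0 : ℝ), ∀ᶠ m in UF, ∀ x ∈ K,
    ‖qq (D m) x - (vin D x * deriv (Bin D) x + 2 * deriv (vin D) x * Bin D x)‖ ≤ ε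

/-- GQE: `q` is entire in case I (copy of helper46/V3/GQE.lean). Uses GBA, GLB, GEX, `V3.REMO_stmt`, `V3.PCO_stmt`. -/
def GQE_stmt : Prop := ∀ (n : ℕ) (C C' C'' : ℝ) (D : ℕ → Dat) (g : ℂ → ℂ), HG n C C' C'' D → LA C D → GG D g →
  ∃ q : ℂ → ℂ, Differentiable ℂ q ∧
    ∀ x ∉ Pin D, q x = vin D x * deriv (Bin D) x + 2 * deriv (vin D) x * Bin D x

/-- GTH: the direction `θ = lim lam/|lam|` (copy of helper38/V3/GTH.lean). -/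
def GTH_stmt : Prop := ∀ (n : ℕ) (C C' C'' : ℝ) (D : ℕ → Dat), HG n C C' C'' D →
  ∃ θ : ℂ, ‖θ‖ = 1 ∧ Tendsto (fun m => (D m).lam / ((‖(D m).lam‖ : ℝ) : ℂ)) UF (𝓝 θ)

/-- GEN: energy of the limit (as helper75/V3/GEN.lean, with the constant of GEI). Uses GEI, GQL, GTC, `XPL.REG_stmt`, `XPL.LPI_stmt`. -/
def GEN_stmt : Prop := ∀ (n : ℕ) (C C' C'' : ℝ) (D : ℕ → Dat) (q : ℂ → ℂ) (θ : ℂ), HG n C C' C'' D → LA C D →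
  Differentiable ℂ q → (∀ x ∉ Pin D, q x = vin D x * deriv (Bin D) x + 2 * deriv (vin D) x * Bin D x) → ‖θ‖ = 1 →
  Tendsto (fun m => (D m).lam / ((‖(D m).lam‖ : ℝ) : ℂ)) UF (𝓝 θ) →
  ∀ e : ℝ, 0 ≤ e → (∀ᶠ m in UF, (D m).s * (D m).E ≤ e * ‖(D m).lam‖) →
  ∀ (ρ : ℝ) (Ω : Set ℂ) (M : ℕ), IsOpen Ω → Ω ⊆ ball 0 ρ →
    (∀ᶠ m in UF, ∀ (z : ℂ) (J : Finset ℕ), (∀ j ∈ J, 1 ≤ j ∧ j ≤ (D m).k) →
      (∀ j ∈ J, ∃ x ∈ Ω, (D m).F j x = z) → J.card ≤ M) →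
    ∫ x in Ω, V3.En θ (Bin D) q x ≤ M * e

/-! ## The limit object, case I -/

/-- GML: the limit object (as helper74/V3/GML.lean without `cF`, `cZ`; `e = C'`, as `s = 1` and `E ≤ C' ‖lam‖`). Uses GAL, GAN, GAG, GQE, GTH, GLB, GGR, GMF, GM1, GEN. -/
def GML_stmt : Prop := ∀ (n : ℕ) (C C' C'' : ℝ) (D : ℕ → Dat) (g : ℂ → ℂ), HG n C C' C'' D → LA C D → CI D g →
  ∃ (A q : ℂ → ℂ) (θ : ℂ), AL D A ∧ LimX (Pin D) A g (Bin D) (vin D) q θ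

/-- ISB: the pull backs of the visible part [XP, (8.4)].
PROOF. `s = 1`: `B = Bb + sg² r(zz)` (GBA), so `F j'² Bb(F j x) = F j'² B(F j x) - F j'² sg² r(zz (F j x))`; `LA.iso`, `LA.img`. -/
def ISB_stmt : Prop := ∀ (n : ℕ) (C C' C'' : ℝ) (D : ℕ → Dat), HG n C C' C'' D → LA C D → (∀ m, (D m).s = 1) →
  ∀ K : Set ℂ, IsCompact K → K ⊆ Reg D → ∀ ε > (0 : ℝ), ∀ᶠ m in UF, ∀ j ≤ (D m).k, ∀ x ∈ K,
    ‖deriv ((D m).F j) x ^ 2 * (D m).Bb ((D m).F j x) - Bin D x‖ ≤ ε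

/-- GZP: the integrands on the copies (copy of helper1/V3/GZP.lean with `Bb` and ISB instead of `iso`). Uses GBA, ISB, GHP. -/
def GZP_stmt : Prop := ∀ (n : ℕ) (C C' C'' : ℝ) (D : ℕ → Dat), HG n C C' C'' D → LA C D → (∀ m, (D m).s = 1) →
  (∀ x ∉ Pin D, vin D x ^ 2 * Bin D x = 1) → ∀ K : Set ℂ, IsCompact K → K ⊆ (Pin D)ᶜ → ∀ ε > (0 : ℝ),
    ∀ᶠ m in UF, ∀ j ≤ (D m).k, ∀ x ∈ K, (∀ l, (D m).F j x ≠ (D m).p l) ∧ (D m).v ((D m).F j x) ≠ 0 ∧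
      ‖(D m).v ((D m).F j x) ^ 2 * (D m).Bb ((D m).F j x) - 1‖ ≤ ε ∧
      ‖(D m).v ((D m).F j x) * (D m).Bb ((D m).F j x) * deriv ((D m).F j) x - 1 / vin D x‖ ≤ ε ∧
      ‖deriv (D m).v ((D m).F j x) / (D m).v ((D m).F j x) * deriv ((D m).F j) x - deriv (vin D) x / vin D x‖ ≤ ε

/-- GZF: contradiction in case (Z) (copy of helper45/V3/GZF.lean with `Bb`). Uses GLB, GZC, GZP, `V3S.GZX_stmt`, GPO, `V3.CHI_stmt`, GBA, GFK. -/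
def GZF_stmt : Prop := ∀ (n : ℕ) (C C' C'' : ℝ) (D : ℕ → Dat) (A : ℂ → ℂ) (t c' : ℂ), HG n C C' C'' D → LA C D →
  (∀ m, (D m).s = 1) → AL D A → t ≠ 0 → Pin D = V3.ZL t → (∀ p ∈ Pin D, A p = 1) → c' ≠ 0 →
  (∀ x, vin D x = c' * (1 - Complex.exp (-(2 * Real.pi * I * x / t)))) →
  (∀ x ∉ Pin D, vin D x ^ 2 * Bin D x = 1) → False

/-! ## Contradictions -/

/-- GF1: case I is impossible. Uses LOA, GML, GZF, EN1. -/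
def GF1_stmt : Prop := ∀ (n : ℕ) (C C' C'' : ℝ) (D : ℕ → Dat) (g : ℂ → ℂ), HG n C C' C'' D → CI D g → False

/-- GF2: case II is impossible [XP, 7]. Uses LOA, GTH, GMS, GEN, EN2, `XPL.LPI_stmt`.
PROOF. `q x = vin x a₁ + 2 vin' x (a₀ + a₁ x)` is entire and equals `vin Bin' + 2 vin' Bin` off `Pin D` (an open set: LPI). `c = 1/(8C)`, `Ω = ball 0 c`, `M = 1` (GMS). For `e > 0`: `s E ≤ s C' ‖lam‖ ≤ e ‖lam‖` eventually (`s → 0`; `0 ≤ s`: `Par.s0`). So `∫_Ω En ≤ e` for all `e > 0` (GEN), so `≤ 0`; on `Ω \ {0}` (countable exception)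
`Bin = a₀ + a₁ x`. EN2: `vin x = x`, contradiction to `LA.far`. -/
def GF2_stmt : Prop := ∀ (n : ℕ) (C C' C'' : ℝ) (D : ℕ → Dat) (a₀ a₁ : ℂ), HG n C C' C'' D → CII D a₀ a₁ → False

end XPG
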