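import Pool.Agent.helper54.XP.SpecG
import Pool.Agent.helper54.V3.GEX

set_option autoImplicit false

open Complex Metric Set Filter Topology MeasureTheory XP
open V3S (UF)

noncomputable section

namespace XPG

theorem GEX (hBA1 : XPL.BA1_stmt) : GEX_stmt := by
  intro n C D hD l
  obtain ⟨⟨A, hg0⟩, hga⟩ := hD
  have hlam : D.lam ≠ 0 := by
    intro h
    have h1 := hga.lam0
    rw [h] at h1
    simp at h1
  obtain ⟨hsg, -, hxz, hzx, h0, hadd, hdiff, hch, hder, hzF, hFp, hp0, hF0, hinj, hzp0, hmul⟩ :=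
    hBA1 n C A D hg0
  have hzp : D.zz (D.p l) = D.b l := hzp0 l
  obtain ⟨Q, hQ⟩ := V3S.GEX_it D.f D.k
  have hF : ((fun w => D.f.eval w)^[D.k]) = fun z => Q.eval z := funext hQ
  have hd1 : ∀ P : Polynomial ℂ, deriv (fun z => P.eval z) = fun z => P.derivative.eval z := by
    intro P; funext z; exact Polynomial.deriv P
  obtain ⟨ha, hg⟩ := V3S.GEX_main D.f D.b D.g hg0.cyc hg0.ex l D.k
  have hak : deriv ((fun w => D.f.eval w)^[D.k]) (D.b l) = Complex.exp D.lam := by
    rw [← hga.hrho, ← hmul l, hder, hzp]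
  have hlk : l + ((D.k : ℕ) : ZMod D.k) = l := by simp
  rw [hlk, hak] at hg
  have hE : Complex.exp D.lam ≠ 0 := Complex.exp_ne_zero _
  have hc : deriv (deriv ((fun w => D.f.eval w)^[D.k])) (D.b l) =
      -(Complex.exp D.lam * (Complex.exp D.lam - 1)) * D.g l := by
    have h2 := hg
    field_simp at h2
    linear_combination h2
  -- derivatives of `v`
  have hdv : deriv D.v = fun x => (deriv (D.F D.k) x - 1) / D.lam := by
    funext x
    have e : D.v = fun x => (D.F D.k x - x) / D.lam := rfl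
    rw [e]
    exact ((((hdiff D.k) x).hasDerivAt.sub (hasDerivAt_id x)).div_const D.lam).deriv
  have hdF : deriv (D.F D.k) = fun x => Q.derivative.eval (D.b 0 + D.sg * x) := by
    funext x
    rw [hder D.k x, hF, hd1]
    rfl
  rw [hdv, hdF]
  have hdd : HasDerivAt (fun x => (Q.derivative.eval (D.b 0 + D.sg * x) - 1) / D.lam)
      (Q.derivative.derivative.eval (D.b 0 + D.sg * D.p l) * D.sg / D.lam) (D.p l) := by
    have h1 : HasDerivAt (fun x : ℂ => D.b 0 + D.sg * x) D.sg (D.p l) := by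
      simpa using ((hasDerivAt_id (D.p l)).const_mul D.sg).const_add (D.b 0)
    have h2 := (Polynomial.hasDerivAt Q.derivative (D.b 0 + D.sg * D.p l))
    exact ((h2.comp (D.p l) h1).sub_const 1).div_const D.lam
  rw [hdd.deriv]
  rw [hF] at hc
  simp only [hd1] at hc
  have hz2 : D.b 0 + D.sg * D.p l = D.b l := hzp
  rw [hz2, hc]
  field_simp

end XPG
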