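import Pool.Agent.helper54.XP.SpecG

set_option autoImplicit false

open Complex Metric Set Filter Topology MeasureTheory XP
open V3S (UF)

noncomputable section

namespace XPG

theorem LOA (hLPI : XPL.LPI_stmt) (hBAD : XPL.BAD_stmt) (hBA1 : XPL.BA1_stmt) (hINJ : XPL.INJ_stmt)
    (hAFF : XPL.AFF_stmt) (hISO : XPL.ISO_stmt) (hVLM : VLM_stmt) (hCMM : CMM_stmt) (hIMG : IMG_stmt) :
    LOA_stmt := by
  intro n C C' C'' D h
  obtain ⟨A, hA, hG⟩ := h.good
  obtain ⟨v1, v2, v3, v4, -⟩ := hVLM n C C' C'' D h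
  obtain ⟨a1, a2⟩ := hAFF n C D h.hl h.st
  have hK : ∀ m, (D m).K = (D m).k := h.hK
  refine
    { C1 := (hG 0).C1
      ga := h.sa.ga
      lam := h.sa.lim.mono_left V3S.UF_le
      P0 := (hLPI n C D h.hl.seq).2.1
      sep := fun m i l hil => (hBAD n C (A m) (D m) (hG m)).2.1 i l hil
      Bdiff := h.hl.lb.diff
      Bconv := h.hl.lb.conv
      acc := h.hl.lb.acc
      vdiff := v1
      vconv := fun K hK => (v2 K hK).1
      vzero := v3
      far := v4
      inj := ?_
      A0 := ?_
      aff := ?_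
      low := ?_
      bA := ?_
      com := hCMM n C C' C'' D h
      iso := ?_
      img := hIMG n C C' C'' D h }
  · intro ρ hρ
    filter_upwards [hINJ n C D h.hl h.st ρ hρ] with m hm j hj
    exact hm j (by rw [hK m]; exact hj)
  · filter_upwards [a1] with m hm j hj
    exact hm j (by rw [hK m]; exact hj)
  · intro ρ hρ ε hε
    filter_upwards [a2 ρ hρ ε hε] with m hm j hj
    exact hm j (by rw [hK m]; exact hj)
  · exact Eventually.of_forall fun m j hj => ((hBAD n C (A m) (D m) (hG m)).1 j hj).2.1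
  · refine Eventually.of_forall fun m j h1 hj => ?_
    have h2 := (hBAD n C (A m) (D m) (hG m)).2.2.1 j h1 hj
    obtain ⟨-, -, -, -, -, -, -, -, -, -, -, -, hF0, -⟩ := hBA1 n C (A m) (D m) (hG m)
    rw [hF0 j]
    exact h2
  · intro K hKc hKR ε hε
    filter_upwards [hISO n C D h.hl h.st K hKc hKR ε hε] with m hm j hj x hx
    exact hm j (by rw [hK m]; exact hj) x hx

end XPG
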