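import Pool.Agent.helper54.XP.AllL
import Pool.Agent.helper76.XP.GBA
import Pool.Agent.helper54.XP.GEX
import Pool.Agent.helper91.XP.GPO
import Pool.Agent.helper97.XP.GZC
import Pool.Agent.helper26.XP.VLM
import Pool.Agent.helper16.XP.CMM
import Pool.Agent.helper87.XP.IMG
import Pool.Agent.helper54.XP.LOA
import Pool.Agent.helper85.XP.GLB
import Pool.Agent.helper38.XP.GFK
import Pool.Agent.helper72.XP.GAL
import Pool.Agent.helper54.XP.GAG
import Pool.Agent.helper40.XP.GAN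
import Pool.Agent.helper67.XP.GGR
import Pool.Agent.helper21.XP.GSE
import Pool.Agent.helper52.XP.GMF
import Pool.Agent.helper29.XP.GM1
import Pool.Agent.helper55.XP.GMS
import Pool.Agent.helper82.XP.GHP
import Pool.Agent.helper77.XP.GTC
import Pool.Agent.helper46.XP.GEP
import Pool.Agent.helper1.XP.GEI
import Pool.Agent.helper51.XP.GQL
import Pool.Agent.helper72.XP.GQE
import Pool.Agent.helper87.XP.GTH
import Pool.Agent.helper43.XP.GEN
import Pool.Agent.helper19.XP.GML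
import Pool.Agent.helper90.XP.ISB
import Pool.Agent.helper70.XP.GZP
import Pool.Agent.helper61.XP.GZF
import Pool.Agent.helper24.XP.GF1
import Pool.Agent.helper89.XP.GF2

/-!
# Project xp: part G: assembly (the end game statements `EN1`, `EN2` of part E are hypotheses)
-/

set_option autoImplicit false

namespace XPG

theorem GBA_g : GBA_stmt := GBA XPL.BA1_l
theorem GEX_g : GEX_stmt := GEX XPL.BA1_l
theorem GPO_g : GPO_stmt := GPO GBA_g
theorem GZC_g : GZC_stmt := GZC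
theorem VLM_g : VLM_stmt := VLM XPL.DSP_l GBA_g V3A.TMO_v V3A.TDE_v V3A.TUL_v
theorem CMM_g : CMM_stmt := CMM VLM_g XPL.AFF_l GBA_g
theorem IMG_g : IMG_stmt := IMG XPL.AFF_l XPL.BAD_l XPL.BA1_l
theorem LOA_g : LOA_stmt := LOA XPL.LPI_l XPL.BAD_l XPL.BA1_l XPL.INJ_l XPL.AFF_l XPL.ISO_l VLM_g CMM_g IMG_g
theorem GLB_g : GLB_stmt := GLB
theorem GFK_g : GFK_stmt := GFK GBA_g
theorem GAL_g : GAL_stmt := GAL GBA_g GLB_g GFK_g V3A.TUL_v
theorem GAG_g : GAG_stmt := GAG GBA_g GLB_g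
theorem GAN_g : GAN_stmt := GAN GAG_g
theorem GGR_g : GGR_stmt := GGR GBA_g GLB_g XPL.LPI_l XPL.REG_l
theorem GSE_g : GSE_stmt := GSE GBA_g GLB_g GFK_g
theorem GMF_g : GMF_stmt := GMF GSE_g GLB_g V3A.TUL_v
theorem GM1_g : GM1_stmt := GM1 GSE_g V3A.TUL_v
theorem GMS_g : GMS_stmt := GMS
theorem GHP_g : GHP_stmt := GHP GBA_g GLB_g GFK_g
theorem GTC_g : GTC_stmt := GTC XPL.REG_l GBA_g XPL.ADH_l V3A.PCO_v GLB_g GHP_g
theorem GEP_g : GEP_stmt := GEP XPS.LVG_x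
theorem GEI_g : GEI_stmt := GEI GEP_g GFK_g GHP_g GTC_g XPS.MAX_x XPS.MIX_x XPL.BA1_l XPL.ADH_l
theorem GQL_g : GQL_stmt := GQL GBA_g XPL.LPI_l XPL.LPB_l VLM_g
theorem GQE_g : GQE_stmt := GQE GBA_g GLB_g GEX_g V3A.REMO_v V3A.PCO_v
theorem GTH_g : GTH_stmt := GTH
theorem GEN_g : GEN_stmt := GEN GEI_g GQL_g GTC_g GHP_g XPL.REG_l XPL.ADH_l
theorem GML_g : GML_stmt := GML GAL_g GAN_g GQE_g GTH_g GLB_g GGR_g GMF_g GM1_g GEN_g
theorem ISB_g : ISB_stmt := ISB GBA_g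
theorem GZP_g : GZP_stmt := GZP GBA_g ISB_g
theorem GZF_g : GZF_stmt := GZF GLB_g GZC_g GZP_g V3A.GZX_v GPO_g V3A.CHI_v GBA_g GFK_g
theorem GF1_g (hEN1 : EN1_stmt) : GF1_stmt := GF1 LOA_g GML_g GZF_g hEN1
theorem GF2_g (hEN2 : EN2_stmt) : GF2_stmt := GF2 LOA_g GTH_g GMS_g GEN_g hEN2 XPL.LPI_l

end XPG
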