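import Pool.Agent.helper54.XP.SpecS

/-! Project v3:, module MU3 (adapted from Pool/Agent/helper21/PP/MU2.lean). -/

set_option autoImplicit false

open Complex Metric Set Filter Topology MeasureTheory
open PPS (fd fdd pre TT CV Br cn)
open MPS (PsiM)

noncomputable section

namespace XPS

theorem MU3 (hP2A : S3A_stmt) (hP2L : S3L_stmt) (hLEA : LEAX_stmt) (hHSM : MPS.HSM_stmt) :
    MU3_stmt := by
  intro n k ff P B R E η h r₀ χ G0 PP M T G Q H
  have hP := hP2L n k ff P B R E η h r₀ χ G0 PP M T G Q H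
  have hA := hP2A n k ff P B R E η h r₀ χ G0 PP M T G Q H
  set f : ℕ → ℂ → ENNReal := fun q w => ENNReal.ofReal (lev B G q w) with hf
  set S : ℕ → Set ℂ := fun q => ball (0 : ℂ) (T q) with hS
  set ν : Measure ℂ := ∑ q ∈ Finset.Icc 1 Q, (volume.restrict (S q)).withDensity (f q) with hν
  have hmeas : Measurable (fun w : ℂ => h - ‖w‖) :=
    (continuous_const.sub continuous_norm).measurable
  refine ⟨ν.map (fun w => h - ‖w‖), ?_, ?_⟩
  · rw [Measure.map_apply hmeas MeasurableSet.univ, preimage_univ, hν,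
      Measure.finsetSum_apply]
    calc ∑ q ∈ Finset.Icc 1 Q, (volume.restrict (S q)).withDensity (f q) univ
        = ∑ q ∈ Finset.Icc 1 Q, ∫⁻ w in S q, f q w := by
          refine Finset.sum_congr rfl fun q _ => ?_
          rw [withDensity_apply _ MeasurableSet.univ, Measure.restrict_univ]
      _ ≤ ENNReal.ofReal (eT M E η) := hP
  · intro p hp1 hpQ s t w hs ht0 hw
    have hanti : ∀ m, m ≤ p → T p ≤ T m := by
      intro m hm
      have : ∀ d, m + d ≤ p → T (m + d) ≤ T m := by
        intro d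
        induction d with
        | zero => intro _; exact le_rfl
        | succ d ih =>
          intro hd
          exact (H.sys.anti (m + d) (by omega)).trans (ih (by omega))
      have h := this (p - m) (by omega)
      rwa [Nat.add_sub_cancel' hm] at h
    have hLS := hA.2.2.2.1 p hpQ
    have hL := hLEA ff P B G (ball 0 (T p)) p H.su3.ad isOpen_ball hLS
    have hball : ∀ z ∈ ball w (t / 2), z ∈ ball (0 : ℂ) (T p) ∧ s + t / 2 < h - ‖z‖ ∧
        h - ‖z‖ < s + 3 * t / 2 := by
      intro z hz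
      rw [mem_ball, dist_eq_norm] at hz
      have h1 : ‖z‖ ≤ ‖z - w‖ + ‖w‖ := by
        calc ‖z‖ = ‖(z - w) + w‖ := by rw [sub_add_cancel]
          _ ≤ _ := norm_add_le _ _
      have h2 : ‖w‖ ≤ ‖z - w‖ + ‖z‖ := by
        calc ‖w‖ = ‖z - (z - w)‖ := by rw [sub_sub_cancel]
          _ ≤ ‖z‖ + ‖z - w‖ := norm_sub_le _ _
          _ = _ := add_comm _ _
      rw [hw] at h1 h2
      refine ⟨?_, by linarith, by linarith⟩
      rw [mem_ball, dist_zero_right]
      linarith
    have hsubHP : ball w (t / 2) ⊆ ball 0 (T p) := fun z hz => (hball z hz).1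
    -- the family
    set hh : ℕ → ℂ → ℂ := fun q z => tau B G (q - 1) z - tau B G q z with hhdef
    have hsum : ∀ z, ∑ q ∈ Finset.Icc 1 p, ‖hh q z‖ =
        ∑ q ∈ Finset.Icc 1 p, lev B G q z := fun z => rfl
    have hdiff : ∀ q ∈ Finset.Icc 1 p, DifferentiableOn ℂ (hh q) (ball 0 (T p)) := by
      intro q hq
      rw [Finset.mem_Icc] at hq
      exact (hL.2.2.1 (q - 1) (by omega)).sub (hL.2.2.1 q hq.2)
    have hkey := hHSM ℕ (Finset.Icc 1 p) hh w (t / 2) (by positivity)
      (fun i hi => (hdiff i hi).mono hsubHP)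
    simp only [hsum] at hkey
    have hlevnn : ∀ q z, 0 ≤ lev B G q z := fun q z => norm_nonneg _
    have hcont : ∀ q ∈ Finset.Icc 1 p, ContinuousOn (lev B G q) (ball 0 (T p)) := by
      intro q hq
      exact (hdiff q hq).continuousOn.norm
    have hint : ∫⁻ z in ball w (t / 2), ENNReal.ofReal (∑ q ∈ Finset.Icc 1 p,
        lev B G q z) = ∑ q ∈ Finset.Icc 1 p, ∫⁻ z in ball w (t / 2), f q z := by
      rw [← lintegral_finsetSum']
      · refine lintegral_congr fun z => ?_
        rw [ENNReal.ofReal_sum_of_nonneg (fun q _ => hlevnn q z)]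
      · intro q hq
        exact ((hcont q hq).mono hsubHP).aemeasurable measurableSet_ball |>.ennreal_ofReal
    have hpre : (ν.map (fun w : ℂ => h - ‖w‖)) (Ioo (s + t / 2) (s + 3 * t / 2)) =
        ∑ q ∈ Finset.Icc 1 Q, ∫⁻ z in (fun w : ℂ => h - ‖w‖) ⁻¹'
          (Ioo (s + t / 2) (s + 3 * t / 2)) ∩ S q, f q z := by
      rw [Measure.map_apply hmeas measurableSet_Ioo, hν, Measure.finsetSum_apply]
      refine Finset.sum_congr rfl fun q _ => ?_
      rw [withDensity_apply _ (hmeas measurableSet_Ioo), Measure.restrict_restrict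
        (hmeas measurableSet_Ioo)]
    have hle : ENNReal.ofReal (Real.pi * (t / 2) ^ 2 * ∑ q ∈ Finset.Icc 1 p,
        lev B G q w) ≤
        (ν.map (fun w : ℂ => h - ‖w‖)) (Ioo (s + t / 2) (s + 3 * t / 2)) := by
      refine hkey.trans ?_
      rw [hint, hpre]
      calc ∑ q ∈ Finset.Icc 1 p, ∫⁻ z in ball w (t / 2), f q z
          ≤ ∑ q ∈ Finset.Icc 1 p, ∫⁻ z in (fun w : ℂ => h - ‖w‖) ⁻¹'
            (Ioo (s + t / 2) (s + 3 * t / 2)) ∩ S q, f q z := by
            refine Finset.sum_le_sum fun q hq => lintegral_mono_set ?_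
            intro z hz
            have h1 := hball z hz
            exact ⟨⟨h1.2.1, h1.2.2⟩, ball_subset_ball (hanti q (Finset.mem_Icc.mp hq).2) h1.1⟩
        _ ≤ _ := by
            refine Finset.sum_le_sum_of_subset ?_
            exact Finset.Icc_subset_Icc le_rfl hpQ
    calc ENNReal.ofReal (∑ q ∈ Finset.Icc 1 p, lev B G q w)
        = ENNReal.ofReal (4 / (Real.pi * t ^ 2)) * ENNReal.ofReal (Real.pi * (t / 2) ^ 2 *
            ∑ q ∈ Finset.Icc 1 p, lev B G q w) := by
          rw [← ENNReal.ofReal_mul (by positivity)]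
          congr 1
          have hpi := Real.pi_ne_zero
          field_simp
          ring
      _ ≤ _ := mul_le_mul_right hle _

end XPS
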